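import Pool.Agent.Q156.CyclicSTS

/-!
# Counting isomorphism classes of cyclic systems

An isomorphism class of block systems on `ZMod n` contains at most `n` systems that are invariant
under `x ↦ x + 1`.
-/

set_option linter.unusedSectionVars false

namespace Q156.CyclicSTS

open Finset
open scoped Pointwise

section count

variable {n : ℕ} [NeZero n]

/-- the shift `x ↦ x + 1` as a permutation -/
def shift (n : ℕ) : Equiv.Perm (ZMod n) := Equiv.addRight 1

omit [NeZero n] in
lemma shift_apply (x : ZMod n) : shift n x = x + 1 := rfl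

lemma perm_ext_aux {u v : Equiv.Perm (ZMod n)}
    (h1 : u * shift n * u⁻¹ = v * shift n * v⁻¹) (h0 : u 0 = v 0) : u = v := by
  have key : ∀ k : ℕ, u (k : ZMod n) = v (k : ZMod n) := by
    intro k
    induction k with
    | zero => simpa using h0
    | succ k ih =>
      have e1 : u ((k + 1 : ℕ) : ZMod n) = (u * shift n * u⁻¹) (u (k : ZMod n)) := by
        simp [shift_apply]
      have e2 : v ((k + 1 : ℕ) : ZMod n) = (v * shift n * v⁻¹) (v (k : ZMod n)) := by
        simp [shift_apply]
      rw [e1, e2, h1, ih]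
  ext x
  have := key x.val
  rw [ZMod.natCast_zmod_val] at this
  rw [this]

/-- An isomorphism class contains at most `n` shift-invariant systems. -/
theorem class_card_le (B0 : Finset (Finset (ZMod n))) (𝓢 : Finset (Finset (Finset (ZMod n))))
    (hinv : ∀ B ∈ 𝓢, shift n • B = B) (hiso : ∀ B ∈ 𝓢, ∃ σ : Equiv.Perm (ZMod n), σ • B0 = B) :
    𝓢.card ≤ n := by
  classical
  let St := MulAction.stabilizer (Equiv.Perm (ZMod n)) B0
  choose! σ hσ using hiso
  let f : 𝓢 × St → St × ZMod n := fun q =>
    (⟨(σ q.1 * (q.2 : Equiv.Perm (ZMod n)))⁻¹ * shift n * (σ q.1 * (q.2 : Equiv.Perm (ZMod n))), by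
      rw [MulAction.mem_stabilizer_iff]
      have hq := (q.2).2
      rw [MulAction.mem_stabilizer_iff] at hq
      rw [mul_smul, mul_smul, mul_smul, hq, hσ _ q.1.2, hinv _ q.1.2, inv_smul_eq_iff, mul_smul,
        hq, hσ _ q.1.2]⟩,
      (σ q.1 * (q.2 : Equiv.Perm (ZMod n)))⁻¹ 0)
  have hf : Function.Injective f := by
    rintro ⟨B, s⟩ ⟨B', s'⟩ hh
    simp only [f, Prod.mk.injEq, Subtype.mk.injEq] at hh
    obtain ⟨h1, h0⟩ := hh
    have h2 : (σ B * (s : Equiv.Perm (ZMod n)))⁻¹ = (σ B' * (s' : Equiv.Perm (ZMod n)))⁻¹ := by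
      apply perm_ext_aux _ h0
      rw [inv_inv, inv_inv]
      exact h1
    have h3 := inv_injective h2
    have hs := s.2
    have hs' := s'.2
    rw [MulAction.mem_stabilizer_iff] at hs hs'
    have h4 : (B : Finset (Finset (ZMod n))) = B' := by
      have e1 : (σ B * (s : Equiv.Perm (ZMod n))) • B0 = B := by
        rw [mul_smul, hs, hσ _ B.2]
      have e2 : (σ B' * (s' : Equiv.Perm (ZMod n))) • B0 = B' := by
        rw [mul_smul, hs', hσ _ B'.2]
      rw [← e1, ← e2, h3]
    have h5 : B = B' := Subtype.ext h4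
    subst h5
    have h6 : (s : Equiv.Perm (ZMod n)) = s' := mul_left_cancel h3
    rw [Subtype.ext h6]
  have hc := Fintype.card_le_of_injective f hf
  rw [Fintype.card_prod, Fintype.card_prod, Fintype.card_coe, ZMod.card, mul_comm] at hc
  exact Nat.le_of_mul_le_mul_left hc Fintype.card_pos

end count

section main

variable {n : ℕ} [NeZero n] {T : Type*} [Fintype T] [DecidableEq T]

lemma shift_smul_sys {a b : T → ZMod n} : shift n • sys a b = sys a b := by
  have hsub : shift n • sys a b ⊆ sys a b := by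
    intro s hs
    rw [Finset.mem_smul_finset] at hs
    obtain ⟨s', hs', rfl⟩ := hs
    exact sys_shift hs'
  exact Finset.eq_of_subset_of_card_le hsub (by rw [Finset.card_smul_finset])

/-- Many non-isomorphic cyclic systems. -/
theorem exists_many (a b : T → ZMod n) (h : IsDF a b) (M : ℕ) (hM : n * M ≤ 2 ^ Fintype.card T) :
    ∃ B : Fin M → Finset (Finset (ZMod n)),
        (∀ i, (∀ b ∈ B i, b.card = 3) ∧
          (∀ x y : ZMod n, x ≠ y → ∃! b : Finset (ZMod n), b ∈ B i ∧ x ∈ b ∧ y ∈ b) ∧
          (∀ b ∈ B i, b.image (fun x => x + 1) ∈ B i)) ∧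
        (∀ i j, i ≠ j → ¬ ∃ σ : Equiv.Perm (ZMod n),
          ∀ b : Finset (ZMod n), b ∈ B i ↔ b.map σ.toEmbedding ∈ B j) := by
  classical
  let 𝓢 : Finset (Finset (Finset (ZMod n))) := (univ : Finset (Finset T)).image (sysS a b)
  have hcard : 𝓢.card = 2 ^ Fintype.card T := by
    rw [Finset.card_image_of_injective _ (sysS_injective h), Finset.card_univ, Fintype.card_finset]
  let r := MulAction.orbitRel (Equiv.Perm (ZMod n)) (Finset (Finset (ZMod n)))
  let q : Finset (Finset (ZMod n)) → Quotient r := fun B => Quotient.mk r B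
  have hle : 𝓢.card ≤ n * (𝓢.image q).card := by
    apply Finset.card_le_mul_card_image
    intro c hc
    obtain ⟨B0, hB0, rfl⟩ := Finset.mem_image.1 hc
    apply class_card_le B0
    · intro B hB
      obtain ⟨S, -, rfl⟩ := Finset.mem_image.1 (Finset.mem_filter.1 hB).1
      exact shift_smul_sys
    · intro B hB
      have := (Finset.mem_filter.1 hB).2
      have h2 : r B B0 := Quotient.exact this
      obtain ⟨σ, hσ⟩ := MulAction.orbitRel_apply.1 h2
      exact ⟨σ, hσ⟩
  have hMle : M ≤ (𝓢.image q).card := by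
    have hn : 0 < n := Nat.pos_of_ne_zero (NeZero.ne n)
    rw [hcard] at hle
    exact Nat.le_of_mul_le_mul_left (hM.trans hle) hn
  obtain ⟨U, hU, hUc⟩ := Finset.exists_subset_card_eq hMle
  let e := (Finset.equivFinOfCardEq hUc).symm
  have hch : ∀ i : Fin M, ∃ S : Finset T, q (sysS a b S) = (e i : Quotient r) := by
    intro i
    obtain ⟨B, hB, hq⟩ := Finset.mem_image.1 (hU (e i).2)
    obtain ⟨S, -, rfl⟩ := Finset.mem_image.1 hB
    exact ⟨S, hq⟩
  choose S hS using hch
  refine ⟨fun i => sysS a b (S i), ?_, ?_⟩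
  · intro i
    refine ⟨fun s hs => card_three (isDF_sw h _) hs, fun x y hxy => sys_unique (isDF_sw h _) hxy,
      fun s hs => sys_shift hs⟩
  · rintro i j hij ⟨σ, hσ⟩
    apply hij
    apply e.injective
    apply Subtype.ext
    rw [← hS i, ← hS j]
    apply Quotient.sound
    change r _ _
    rw [MulAction.orbitRel_apply]
    refine ⟨σ⁻¹, ?_⟩
    change σ⁻¹ • sysS a b (S j) = sysS a b (S i)
    rw [inv_smul_eq_iff]
    ext t
    rw [Finset.mem_smul_finset]
    constructor
    · intro ht
      refine ⟨σ⁻¹ • t, ?_, by rw [smul_inv_smul]⟩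
      rw [hσ]
      have : (σ⁻¹ • t).map σ.toEmbedding = t := by
        have h1 : σ • (σ⁻¹ • t) = t := smul_inv_smul σ t
        rw [Finset.map_eq_image]
        exact h1
      rw [this]; exact ht
    · rintro ⟨s, hs, rfl⟩
      have h1 := (hσ s).1 hs
      rw [Finset.map_eq_image] at h1
      exact h1

end main

end Q156.CyclicSTS
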