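import Mathlib

/-!
# Skolem, hooked Skolem, Rosa and hooked Rosa sequences

For each residue of `t` modulo `4` an explicit function `α` such that the pairs
`(α i, α i + i)`, `1 ≤ i ≤ t`, are disjoint and avoid the positions that matter for the
difference problems modulo `6 t + 1` and `6 t + 3`.
-/

namespace Q156.Skolem

/-- The arithmetic conditions on `α` used to build a difference family modulo `n`. -/
def Good (n t : ℕ) (α : ℕ → ℕ) : Prop :=
  (∀ i, 1 ≤ i → i ≤ t → 1 ≤ α i ∧ α i + i ≤ 2 * t + 2) ∧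
  (∀ i j, 1 ≤ i → i ≤ t → 1 ≤ j → j ≤ t →
    (α i = α j → i = j) ∧ (α i + i = α j + j → i = j) ∧ α i + i ≠ α j ∧
    α i + α j + 2 * t ≠ n ∧ α i + i + α j + 2 * t ≠ n ∧ α i + i + (α j + j) + 2 * t ≠ n) ∧
  (n = 6 * t + 1 ∨ (n = 6 * t + 3 ∧ ∀ i, 1 ≤ i → i ≤ t → α i ≠ t + 1 ∧ α i + i ≠ t + 1))

end Q156.Skolem
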