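import Pool.Agent.Q156.CyclicSTS
import Pool.Agent.Q156.SkolemGood

/-!
# Difference families from arithmetic data
-/

namespace Q156.CyclicSTS

open Finset Q156.Skolem

section

variable {n : ℕ} [NeZero n]

omit [NeZero n] in
lemma cast_eq_cast {x y : ℕ} (hx : x < n) (hy : y < n) (h : (x : ZMod n) = (y : ZMod n)) :
    x = y := by
  rw [ZMod.natCast_eq_natCast_iff'] at h
  rwa [Nat.mod_eq_of_lt hx, Nat.mod_eq_of_lt hy] at h

omit [NeZero n] in
lemma cast_eq_neg_cast {x y : ℕ} (hx : 0 < x) (hx' : x < n) (hy' : y < n)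
    (h : (x : ZMod n) = -(y : ZMod n)) : x + y = n := by
  have h1 : ((x + y : ℕ) : ZMod n) = 0 := by
    push_cast
    rw [h]; ring
  rw [ZMod.natCast_eq_zero_iff] at h1
  obtain ⟨k, hk⟩ := h1
  have : k = 1 := by
    have h2 : k < 2 := by
      by_contra h3
      have : n * 2 ≤ n * k := Nat.mul_le_mul_left n (by omega)
      omega
    have h3 : k ≠ 0 := by
      rintro rfl
      omega
    omega
  rw [this, mul_one] at hk
  exact hk

/-- magnitudes -/
def mag {t : ℕ} (α : ℕ → ℕ) (i : Fin t) : Fin 3 → ℕ :=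
  ![i.val + 1, α (i.val + 1) + t, α (i.val + 1) + (i.val + 1) + t]

def av (n : ℕ) {t : ℕ} (i : Fin t) : ZMod n := ((i.val + 1 : ℕ) : ZMod n)
def bv (n : ℕ) {t : ℕ} (α : ℕ → ℕ) (i : Fin t) : ZMod n := ((α (i.val + 1) + t : ℕ) : ZMod n)

def pos : Fin 6 → Fin 3 := ![0, 1, 2, 0, 1, 2]
def neg : Fin 6 → Bool := ![false, false, false, true, true, true]

lemma pos_neg_inj : ∀ j j', pos j = pos j' → neg j = neg j' → j = j' := by decide

omit [NeZero n] in
lemma dif_eq {t : ℕ} (α : ℕ → ℕ) (i : Fin t) (j : Fin 6) :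
    dif (av n) (bv n α) i j = if neg j then -((mag α i (pos j) : ℕ) : ZMod n)
      else ((mag α i (pos j) : ℕ) : ZMod n) := by
  fin_cases j <;> simp [dif, av, bv, neg, pos, mag] <;> ring

lemma mag_inj {n t : ℕ} {α : ℕ → ℕ} (hg : Good n t α) {i i' : Fin t} {k k' : Fin 3}
    (h : mag α i k = mag α i' k') : i = i' ∧ k = k' := by
  have hi := i.2
  have hi' := i'.2
  have g1 := hg.1 (i.val + 1) (by omega) (by omega)
  have g1' := hg.1 (i'.val + 1) (by omega) (by omega)
  have g2 := hg.2.1 (i.val + 1) (i'.val + 1) (by omega) (by omega) (by omega) (by omega)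
  have g2' := hg.2.1 (i'.val + 1) (i.val + 1) (by omega) (by omega) (by omega) (by omega)
  have key : i.val = i'.val → i = i' := fun h => Fin.ext h
  fin_cases k <;> fin_cases k' <;> simp [mag] at h ⊢ <;> (try apply key) <;> omega

lemma mag_sum {n t : ℕ} {α : ℕ → ℕ} (hg : Good n t α) (i i' : Fin t) (k k' : Fin 3) :
    mag α i k + mag α i' k' ≠ n := by
  have hi := i.2
  have hi' := i'.2
  have g1 := hg.1 (i.val + 1) (by omega) (by omega)
  have g1' := hg.1 (i'.val + 1) (by omega) (by omega)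
  have g2 := hg.2.1 (i.val + 1) (i'.val + 1) (by omega) (by omega) (by omega) (by omega)
  have g2' := hg.2.1 (i'.val + 1) (i.val + 1) (by omega) (by omega) (by omega) (by omega)
  have g3 : n = 6 * t + 1 ∨ n = 6 * t + 3 := by
    rcases hg.2.2 with h | h
    · exact Or.inl h
    · exact Or.inr h.1
  fin_cases k <;> fin_cases k' <;> simp [mag] <;> omega

lemma mag_bd {n t : ℕ} {α : ℕ → ℕ} (ht : 2 ≤ t) (hg : Good n t α) (i : Fin t) (k : Fin 3) :
    0 < mag α i k ∧ mag α i k < n ∧ 3 * mag α i k ≠ n ∧ 3 * mag α i k < 2 * n := by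
  have hi := i.2
  have g1 := hg.1 (i.val + 1) (by omega) (by omega)
  rcases hg.2.2 with h | ⟨h, h2⟩
  · fin_cases k <;> simp [mag] <;> omega
  · have h3 := h2 (i.val + 1) (by omega) (by omega)
    fin_cases k <;> simp [mag] <;> omega

omit [NeZero n] in
lemma three_mag_ne {t : ℕ} {α : ℕ → ℕ} (ht : 2 ≤ t) (hg : Good n t α) (i : Fin t) (k : Fin 3) :
    3 * ((mag α i k : ℕ) : ZMod n) ≠ 0 := by
  intro h
  have h1 : ((3 * mag α i k : ℕ) : ZMod n) = 0 := by
    push_cast; exact h
  rw [ZMod.natCast_eq_zero_iff] at h1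
  obtain ⟨c, hc⟩ := h1
  obtain ⟨b1, b2, b3, b4⟩ := mag_bd ht hg i k
  have h2 : c < 2 := by
    by_contra h3
    have : n * 2 ≤ n * c := Nat.mul_le_mul_left n (by omega)
    omega
  interval_cases c <;> omega

theorem isDF_of_good {t : ℕ} {α : ℕ → ℕ} (ht : 2 ≤ t) (hg : Good n t α) :
    IsDF (av n (t := t)) (bv n α) := by
  have inj : ∀ (i : Fin t) j i' j', dif (av n) (bv n α) i j = dif (av n) (bv n α) i' j' →
      i = i' ∧ j = j' := by
    intro i j i' j' h
    rw [dif_eq, dif_eq] at h
    obtain ⟨b1, b2, b3, b4⟩ := mag_bd ht hg i (pos j)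
    obtain ⟨c1, c2, c3, c4⟩ := mag_bd ht hg i' (pos j')
    by_cases hn : neg j = true <;> by_cases hn' : neg j' = true
    · simp only [hn, hn', if_true, neg_inj] at h
      obtain ⟨h1, h2⟩ := mag_inj hg (cast_eq_cast b2 c2 h)
      exact ⟨h1, pos_neg_inj _ _ h2 (by rw [hn, hn'])⟩
    · simp only [hn, hn', if_true] at h
      exact absurd (cast_eq_neg_cast c1 c2 b2 h.symm) (mag_sum hg _ _ _ _)
    · simp only [hn, hn', if_true] at h
      exact absurd (cast_eq_neg_cast b1 b2 c2 h) (mag_sum hg _ _ _ _)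
    · simp only [hn, hn'] at h
      obtain ⟨h1, h2⟩ := mag_inj hg (cast_eq_cast b2 c2 h)
      refine ⟨h1, pos_neg_inj _ _ h2 ?_⟩
      simp only [Bool.not_eq_true] at hn hn'
      rw [hn, hn']
  have hne : ∀ (i : Fin t) j, 3 * dif (av n) (bv n α) i j ≠ 0 := by
    intro i j
    rw [dif_eq]
    split_ifs
    · have := three_mag_ne ht hg i (pos j)
      simpa using this
    · exact three_mag_ne ht hg i (pos j)
  refine ⟨inj, hne, ?_⟩
  classical
  let D : Finset (ZMod n) := univ.filter fun d => 3 * d ≠ 0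
  let E : Finset (ZMod n) := univ.filter fun d => ¬ (3 * d ≠ 0)
  have hDE : D.card + E.card = n := by
    have := Finset.card_filter_add_card_filter_not (s := (univ : Finset (ZMod n)))
      (fun d => 3 * d ≠ 0)
    rw [Finset.card_univ, ZMod.card] at this
    exact this
  let Im : Finset (ZMod n) := (univ : Finset (Fin t × Fin 6)).image
    fun q => dif (av n) (bv n α) q.1 q.2
  have hIm : Im.card = 6 * t := by
    rw [Finset.card_image_of_injective, Finset.card_univ, Fintype.card_prod, Fintype.card_fin,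
      Fintype.card_fin, mul_comm]
    rintro ⟨i, j⟩ ⟨i', j'⟩ h
    obtain ⟨h1, h2⟩ := inj _ _ _ _ h
    exact Prod.ext h1 h2
  have hsub : Im ⊆ D := by
    intro d hd
    obtain ⟨⟨i, j⟩, -, rfl⟩ := Finset.mem_image.1 hd
    simp only [D, Finset.mem_filter, Finset.mem_univ, true_and]
    exact hne i j
  have hE : n - 6 * t ≤ E.card := by
    rcases hg.2.2 with h | ⟨h, -⟩
    · have : n - 6 * t = 1 := by omega
      rw [this, Nat.one_le_iff_ne_zero, ← Nat.pos_iff_ne_zero, Finset.card_pos]
      exact ⟨0, by simp [E]⟩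
    · have h3 : n - 6 * t = 3 := by omega
      rw [h3]
      have e1 : ∀ k : ℕ, 3 * (((2 * t + 1) * k : ℕ) : ZMod n) = 0 := by
        intro k
        have : ((n * k : ℕ) : ZMod n) = 0 := by simp
        rw [h] at this
        have h4 : 3 * ((2 * t + 1) * k) = (6 * t + 3) * k := by ring
        have h5 : (3 : ZMod n) * (((2 * t + 1) * k : ℕ) : ZMod n)
            = ((3 * ((2 * t + 1) * k) : ℕ) : ZMod n) := by push_cast; ring
        rw [h5, h4]
        have h6 : (((6 * t + 3) * k : ℕ) : ZMod n) = ((n * k : ℕ) : ZMod n) := by rw [h]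
        rw [h6]; simp
      have hsub2 : (Finset.range 3).image (fun k => (((2 * t + 1) * k : ℕ) : ZMod n)) ⊆ E := by
        intro d hd
        obtain ⟨k, -, rfl⟩ := Finset.mem_image.1 hd
        simp only [E, Finset.mem_filter, Finset.mem_univ, true_and, not_not]
        exact e1 k
      have hc := Finset.card_le_card hsub2
      rw [Finset.card_image_of_injOn, Finset.card_range] at hc
      · exact hc
      · intro x hx y hy hxy
        simp only [Finset.coe_range, Set.mem_Iio] at hx hy
        have hx' : (2 * t + 1) * x < n := by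
          have : (2 * t + 1) * x ≤ (2 * t + 1) * 2 := Nat.mul_le_mul_left _ (by omega)
          omega
        have hy' : (2 * t + 1) * y < n := by
          have : (2 * t + 1) * y ≤ (2 * t + 1) * 2 := Nat.mul_le_mul_left _ (by omega)
          omega
        have := cast_eq_cast hx' hy' hxy
        exact Nat.eq_of_mul_eq_mul_left (by omega) this
  have heq : Im = D := Finset.eq_of_subset_of_card_le hsub (by omega)
  intro d hd
  have : d ∈ Im := by
    rw [heq]
    simp only [D, Finset.mem_filter, Finset.mem_univ, true_and]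
    exact hd
  obtain ⟨⟨i, j⟩, -, h⟩ := Finset.mem_image.1 this
  exact ⟨i, j, h⟩

end

end Q156.CyclicSTS
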