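import Pool.Agent.Q156.SkolemThree

/-! # Existence of the arithmetic data for all large orders `6 t + 3` -/

namespace Q156.Skolem

theorem exists_good_three (t : ℕ) (ht : 8 ≤ t) : ∃ α, Good (6 * t + 3) t α := by
  have h4 : t % 4 = 0 ∨ t % 4 = 1 ∨ t % 4 = 2 ∨ t % 4 = 3 := by omega
  rcases h4 with h | h | h | h
  · obtain ⟨m, rfl⟩ : ∃ m, t = 4 * m := ⟨t / 4, by omega⟩
    exact ⟨_, good_R0 m (by omega)⟩
  · obtain ⟨m, rfl⟩ : ∃ m, t = 4 * m + 1 := ⟨t / 4, by omega⟩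
    exact ⟨_, good_HR1 m (by omega)⟩
  · obtain ⟨m, rfl⟩ : ∃ m, t = 4 * m + 2 := ⟨t / 4, by omega⟩
    exact ⟨_, good_HR2 m (by omega)⟩
  · obtain ⟨m, rfl⟩ : ∃ m, t = 4 * m - 1 := ⟨t / 4 + 1, by omega⟩
    exact ⟨_, good_R3 m (by omega)⟩

end Q156.Skolem
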