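import Mathlib

/-!
# Cyclic Steiner triple systems from difference triples

General machinery: a family of triples `(a i, b i)` in `ZMod n` whose six differences
`±a i, ±b i, ±(a i + b i)` run exactly once through the `d` with `3 d ≠ 0` gives a cyclic Steiner
triple system on `ZMod n`; swapping `a i` and `b i` for `i` in a set `S` gives further ones, all
distinct; and an isomorphism class contains at most `n` cyclic systems on `ZMod n`.
-/

set_option linter.unusedSectionVars false

namespace Q156.CyclicSTS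

open Finset

section DF

variable {n : ℕ} [NeZero n] {T : Type*}

/-- the six differences of the triple `{0, a, a + b}` -/
def dif (a b : T → ZMod n) (i : T) : Fin 6 → ZMod n :=
  ![a i, b i, a i + b i, - a i, - b i, -(a i + b i)]

/-- third point of the block through `0` and `dif i j` -/
def third (a b : T → ZMod n) (i : T) : Fin 6 → ZMod n :=
  ![a i + b i, - a i, a i, b i, -(a i + b i), - b i]

/-- difference family -/
def IsDF (a b : T → ZMod n) : Prop :=
  (∀ i j i' j', dif a b i j = dif a b i' j' → i = i' ∧ j = j') ∧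
  (∀ i j, 3 * dif a b i j ≠ 0) ∧ (∀ d, 3 * d ≠ 0 → ∃ i j, dif a b i j = d)

open Classical in
/-- the block set: developed triples and the short orbit (if `3 ∣ n`) -/
noncomputable def sys (a b : T → ZMod n) : Finset (Finset (ZMod n)) :=
  univ.filter fun s => (∃ i p, s = {p, p + a i, p + a i + b i}) ∨
    (∃ p d, d ≠ 0 ∧ 3 * d = 0 ∧ s = {p, p + d, p + 2 * d})

lemma mem_sys {a b : T → ZMod n} {s : Finset (ZMod n)} :
    s ∈ sys a b ↔ (∃ i p, s = {p, p + a i, p + a i + b i}) ∨
    (∃ p d, d ≠ 0 ∧ 3 * d = 0 ∧ s = {p, p + d, p + 2 * d}) := by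
  classical
  simp [sys]

variable {a b : T → ZMod n}

lemma ne_zero_of (h : IsDF a b) (i : T) (j : Fin 6) : dif a b i j ≠ 0 := by
  intro h0
  have := h.2.1 i j
  rw [h0] at this
  simp at this

lemma a_ne (h : IsDF a b) (i : T) : a i ≠ 0 := ne_zero_of h i 0
lemma b_ne (h : IsDF a b) (i : T) : b i ≠ 0 := ne_zero_of h i 1
lemma ab_ne (h : IsDF a b) (i : T) : a i + b i ≠ 0 := ne_zero_of h i 2

lemma a_ne_b (h : IsDF a b) (i : T) : a i ≠ b i := by
  intro h0
  have := h.1 i 0 i 1 (by simpa [dif] using h0)
  simp at this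

lemma short_two {d : ZMod n} (hd : d ≠ 0) (h3 : 3 * d = 0) : 2 * d ≠ 0 := by
  intro h2
  apply hd
  have : d = 3 * d - 2 * d := by ring
  rw [this, h3, h2, sub_zero]

lemma card_three (h : IsDF a b) {s : Finset (ZMod n)} (hs : s ∈ sys a b) : s.card = 3 := by
  rcases mem_sys.1 hs with ⟨i, p, rfl⟩ | ⟨p, d, hd, h3, rfl⟩
  · rw [Finset.card_eq_three]
    refine ⟨p, p + a i, p + a i + b i, ?_, ?_, ?_, rfl⟩
    · intro hh; exact a_ne h i (by simpa using hh)
    · intro hh
      rw [add_assoc] at hh
      exact ab_ne h i (by simpa using hh)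
    · intro hh; exact b_ne h i (by simpa using hh)
  · rw [Finset.card_eq_three]
    refine ⟨p, p + d, p + 2 * d, ?_, ?_, ?_, rfl⟩
    · intro hh; exact hd (by simpa using hh)
    · intro hh; exact short_two hd h3 (by simpa using hh)
    · intro hh
      apply hd
      have : p + d = p + 2 * d := hh
      have h2 : d = (p + 2 * d) - (p + d) := by ring
      rw [h2, this, sub_self]

/-- a developed triple through `x ≠ y` -/
lemma long_third {i : T} {p x y : ZMod n}
    (hx : x ∈ ({p, p + a i, p + a i + b i} : Finset (ZMod n)))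
    (hy : y ∈ ({p, p + a i, p + a i + b i} : Finset (ZMod n))) (hxy : x ≠ y) :
    ∃ j, y - x = dif a b i j ∧
      ({p, p + a i, p + a i + b i} : Finset (ZMod n)) = {x, y, x + third a b i j} := by
  simp only [mem_insert, mem_singleton] at hx hy
  rcases hx with rfl | rfl | rfl <;> rcases hy with rfl | rfl | rfl
  · exact absurd rfl hxy
  · refine ⟨0, by simp [dif], ?_⟩
    ext z; simp [third]; ring_nf
  · refine ⟨2, by simp [dif]; ring, ?_⟩
    ext z; simp [third]; tauto
  · refine ⟨3, by simp [dif], ?_⟩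
    ext z; simp [third]; tauto
  · exact absurd rfl hxy
  · refine ⟨1, by simp [dif], ?_⟩
    ext z; simp [third]; tauto
  · refine ⟨5, by simp [dif]; ring, ?_⟩
    ext z; simp [third]; tauto
  · refine ⟨4, by simp [dif], ?_⟩
    ext z; simp [third, ← add_assoc]; tauto
  · exact absurd rfl hxy

lemma long_mem (i : T) (j : Fin 6) (x : ZMod n) :
    ({x, x + dif a b i j, x + third a b i j} : Finset (ZMod n)) ∈ sys a b := by
  rw [mem_sys]
  left
  fin_cases j
  · refine ⟨i, x, ?_⟩
    ext z; simp [dif, third, add_assoc]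
  · refine ⟨i, x - a i, ?_⟩
    ext z; simp [dif, third, sub_eq_add_neg]; tauto
  · refine ⟨i, x, ?_⟩
    ext z; simp [dif, third]; ring_nf; tauto
  · refine ⟨i, x - a i, ?_⟩
    ext z; simp [dif, third, sub_eq_add_neg]; tauto
  · refine ⟨i, x - (a i + b i), ?_⟩
    ext z; simp [dif, third]; ring_nf; tauto
  · refine ⟨i, x - (a i + b i), ?_⟩
    ext z; simp [dif, third]; ring_nf; tauto

/-- a short block through `x ≠ y` -/
lemma short_third {d p x y : ZMod n} (h3 : 3 * d = 0)
    (hx : x ∈ ({p, p + d, p + 2 * d} : Finset (ZMod n)))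
    (hy : y ∈ ({p, p + d, p + 2 * d} : Finset (ZMod n))) (hxy : x ≠ y) :
    3 * (y - x) = 0 ∧
      ({p, p + d, p + 2 * d} : Finset (ZMod n)) = {x, y, x + 2 * (y - x)} := by
  simp only [mem_insert, mem_singleton] at hx hy
  have e1 : p + 2 * (2 * d) = p + d := by linear_combination h3
  have e3 : p + 2 * d + 2 * (d - 2 * d) = p := by ring
  rcases hx with rfl | rfl | rfl <;> rcases hy with rfl | rfl | rfl
  · exact absurd rfl hxy
  · refine ⟨by linear_combination h3, ?_⟩
    have : x + 2 * (x + d - x) = x + 2 * d := by ring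
    rw [this]
  · refine ⟨by linear_combination 2 * h3, ?_⟩
    have : x + 2 * (x + 2 * d - x) = x + d := by linear_combination h3
    rw [this]; ext z; simp; tauto
  · refine ⟨by linear_combination -h3, ?_⟩
    have : y + d + 2 * (y - (y + d)) = y + 2 * d := by linear_combination - h3
    rw [this]; ext z; simp; tauto
  · exact absurd rfl hxy
  · refine ⟨by linear_combination h3, ?_⟩
    have : p + d + 2 * (p + 2 * d - (p + d)) = p := by linear_combination h3
    rw [this]; ext z; simp; tauto
  · refine ⟨by linear_combination -2 * h3, ?_⟩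
    have : y + 2 * d + 2 * (y - (y + 2 * d)) = y + d := by linear_combination - h3
    rw [this]; ext z; simp; tauto
  · refine ⟨by linear_combination - h3, ?_⟩
    have : p + 2 * d + 2 * (p + d - (p + 2 * d)) = p := by ring
    rw [this]; ext z; simp; tauto
  · exact absurd rfl hxy

theorem sys_unique (h : IsDF a b) {x y : ZMod n} (hxy : x ≠ y) :
    ∃! s : Finset (ZMod n), s ∈ sys a b ∧ x ∈ s ∧ y ∈ s := by
  by_cases h3 : 3 * (y - x) = 0
  · refine ⟨{x, y, x + 2 * (y - x)}, ⟨?_, by simp, by simp⟩, ?_⟩
    · rw [mem_sys]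
      right
      refine ⟨x, y - x, sub_ne_zero.2 hxy.symm, h3, ?_⟩
      congr 2; ring
    · rintro s ⟨hs, hx, hy⟩
      rcases mem_sys.1 hs with ⟨i, p, rfl⟩ | ⟨p, d, hd, hd3, rfl⟩
      · obtain ⟨j, hj, -⟩ := long_third hx hy hxy
        rw [hj] at h3
        exact absurd h3 (h.2.1 i j)
      · exact (short_third hd3 hx hy hxy).2
  · obtain ⟨i, j, hij⟩ := h.2.2 _ h3
    refine ⟨{x, y, x + third a b i j}, ⟨?_, by simp, by simp⟩, ?_⟩
    · have := long_mem (a := a) (b := b) i j x
      rw [hij] at this
      have e : x + (y - x) = y := by ring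
      rwa [e] at this
    · rintro s ⟨hs, hx, hy⟩
      rcases mem_sys.1 hs with ⟨i', p, rfl⟩ | ⟨p, d, hd, hd3, rfl⟩
      · obtain ⟨j', hj, he⟩ := long_third hx hy hxy
        rw [he]
        rw [← hij] at hj
        obtain ⟨rfl, rfl⟩ := h.1 _ _ _ _ hj
        rfl
      · exact absurd (short_third hd3 hx hy hxy).1 h3

theorem sys_shift {s : Finset (ZMod n)} (hs : s ∈ sys a b) :
    s.image (fun x => x + 1) ∈ sys a b := by
  rcases mem_sys.1 hs with ⟨i, p, rfl⟩ | ⟨p, d, hd, h3, rfl⟩
  · rw [mem_sys]
    left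
    refine ⟨i, p + 1, ?_⟩
    ext z; simp only [mem_image, mem_insert, mem_singleton]
    constructor
    · rintro ⟨w, rfl | rfl | rfl, rfl⟩
      · simp
      · right; left; ring
      · right; right; ring
    · rintro (rfl | rfl | rfl)
      · exact ⟨p, by simp, rfl⟩
      · exact ⟨p + a i, by simp, by ring⟩
      · exact ⟨p + a i + b i, by simp, by ring⟩
  · rw [mem_sys]
    right
    refine ⟨p + 1, d, hd, h3, ?_⟩
    ext z; simp only [mem_image, mem_insert, mem_singleton]
    constructor
    · rintro ⟨w, rfl | rfl | rfl, rfl⟩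
      · simp
      · right; left; ring
      · right; right; ring
    · rintro (rfl | rfl | rfl)
      · exact ⟨p, by simp, rfl⟩
      · exact ⟨p + d, by simp, by ring⟩
      · exact ⟨p + 2 * d, by simp, by ring⟩

/-! ### Swapping -/

section swap
variable [DecidableEq T]

/-- swap `a` and `b` on `S`: first function -/
def sw (S : Finset T) (a b : T → ZMod n) : T → ZMod n := fun i => if i ∈ S then b i else a i

/-- the permutation of the six positions -/
def tau : Fin 6 → Fin 6 := ![1, 0, 2, 4, 3, 5]

lemma dif_sw (S : Finset T) (i : T) (j : Fin 6) :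
    dif (sw S a b) (sw S b a) i j = dif a b i (if i ∈ S then tau j else j) := by
  by_cases hi : i ∈ S
  · fin_cases j <;> simp [dif, sw, hi, tau, add_comm]
  · fin_cases j <;> simp [dif, sw, hi]

lemma tau_tau : ∀ j, tau (tau j) = j := by decide

lemma isDF_sw (h : IsDF a b) (S : Finset T) : IsDF (sw S a b) (sw S b a) := by
  refine ⟨?_, ?_, ?_⟩
  · intro i j i' j' hh
    rw [dif_sw, dif_sw] at hh
    obtain ⟨rfl, h2⟩ := h.1 _ _ _ _ hh
    refine ⟨rfl, ?_⟩
    by_cases hi : i ∈ S
    · simp only [hi, if_true] at h2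
      rw [← tau_tau j, h2, tau_tau]
    · simpa [hi] using h2
  · intro i j
    rw [dif_sw]
    exact h.2.1 _ _
  · intro d hd
    obtain ⟨i, j, hij⟩ := h.2.2 d hd
    refine ⟨i, if i ∈ S then tau j else j, ?_⟩
    rw [dif_sw]
    by_cases hi : i ∈ S
    · simp [hi, tau_tau, hij]
    · simp [hi, hij]

/-- the system attached to `S` -/
noncomputable def sysS (a b : T → ZMod n) (S : Finset T) : Finset (Finset (ZMod n)) :=
  sys (sw S a b) (sw S b a)

lemma mem_sysS_iff (h : IsDF a b) (S : Finset T) (i : T) :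
    ({0, a i, a i + b i} : Finset (ZMod n)) ∈ sysS a b S ↔ i ∉ S := by
  constructor
  · intro hm hi
    have h2 : ({0, b i, b i + a i} : Finset (ZMod n)) ∈ sysS a b S := by
      unfold sysS
      rw [mem_sys]
      left
      exact ⟨i, 0, by simp [sw, hi]⟩
    have huni := (sys_unique (isDF_sw h S) (x := 0) (y := a i + b i) (ab_ne h i).symm)
    have heq := huni.unique ⟨hm, by simp, by simp⟩ ⟨h2, by simp, by simp [add_comm]⟩
    have h3 : a i ∈ ({0, b i, b i + a i} : Finset (ZMod n)) := by
      rw [← heq]; simp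
    simp only [mem_insert, mem_singleton] at h3
    rcases h3 with h3 | h3 | h3
    · exact a_ne h i h3
    · exact a_ne_b h i h3
    · exact b_ne h i (by simpa using h3)
  · intro hi
    unfold sysS
    rw [mem_sys]
    left
    exact ⟨i, 0, by simp [sw, hi]⟩

lemma sysS_injective (h : IsDF a b) : Function.Injective (sysS a b) := by
  intro S S' hSS
  ext i
  have h1 := mem_sysS_iff h S i
  have h2 := mem_sysS_iff h S' i
  rw [hSS] at h1
  have := h1.symm.trans h2
  tauto

end swap

end DF

end Q156.CyclicSTS
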