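import Pool.Agent.Q256.EC.Stm

set_option autoImplicit false

/-! Job ANM of project EC. -/

namespace Pool.Agent.Q156.EC

open Pool.Agent.Q256.EC

section
variable {K : Type} [NormedField K]

theorem an_nonneg {q : ℝ} {g : ℕ → K} (h : An q g) :
    ∃ C : ℝ, 0 ≤ C ∧ ∀ i n, ‖(fwdDiff 1)^[i] g n‖ ≤ C * q ^ i := by
  obtain ⟨C, hC⟩ := h
  have h0 := hC 0 0
  rw [pow_zero, mul_one] at h0
  exact ⟨C, (norm_nonneg _).trans h0, hC⟩

theorem an_mul_aux [IsUltrametricDist K] (q : ℝ) (hq : 0 ≤ q) (i : ℕ) : ∀ (f g : ℕ → K) (C C' : ℝ),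
    0 ≤ C → 0 ≤ C' →
    (∀ a n, ‖(fwdDiff 1)^[a] f n‖ ≤ C * q ^ a) → (∀ b n, ‖(fwdDiff 1)^[b] g n‖ ≤ C' * q ^ b) →
    ∀ n, ‖(fwdDiff 1)^[i] (fun n => f n * g n) n‖ ≤ C * C' * q ^ i := by
  induction i with
  | zero =>
    intro f g C C' hC hC' hf hg n
    have h1 := hf 0 n
    have h2 := hg 0 n
    simp only [Function.iterate_zero, id, pow_zero, mul_one] at h1 h2 ⊢
    rw [norm_mul]
    exact mul_le_mul h1 h2 (norm_nonneg _) hC
  | succ i ih =>
    intro f g C C' hC hC' hf hg n
    have h1 : fwdDiff 1 (fun n => f n * g n) =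
        (fun n => f (n + 1) * fwdDiff 1 g n) + (fun n => fwdDiff 1 f n * g n) := by
      ext k
      simp only [fwdDiff, Pi.add_apply]
      ring
    rw [Function.iterate_succ_apply, h1, fwdDiff_iter_add, Pi.add_apply]
    refine (IsUltrametricDist.norm_add_le_max _ _).trans (max_le ?_ ?_)
    · have hf1 : ∀ a n, ‖(fwdDiff 1)^[a] (fun n => f (n + 1)) n‖ ≤ C * q ^ a := by
        intro a n
        rw [fwdDiff_iter_comp_add]
        exact hf a (n + 1)
      have := ih (fun n => f (n + 1)) (fwdDiff 1 g) C (C' * q) hC (mul_nonneg hC' hq) hf1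
        (fun b n => by
          have := hg (b + 1) n
          rw [Function.iterate_succ_apply] at this
          calc _ ≤ _ := this
            _ = _ := by ring) n
      calc _ ≤ _ := this
        _ = _ := by ring
    · have := ih (fwdDiff 1 f) g (C * q) C' (mul_nonneg hC hq) hC'
        (fun b n => by
          have := hf (b + 1) n
          rw [Function.iterate_succ_apply] at this
          calc _ ≤ _ := this
            _ = _ := by ring) hg n
      calc _ ≤ _ := this
        _ = _ := by ring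

theorem fwdDiff_iter_pow (x : K) (i : ℕ) :
    (fwdDiff 1)^[i] (fun n : ℕ => x ^ n) = fun n => (x - 1) ^ i * x ^ n := by
  induction i with
  | zero => ext n; simp
  | succ i ih =>
    rw [Function.iterate_succ_apply', ih]
    ext n
    simp only [fwdDiff]
    ring

theorem fwdDiff_iter_const (c : K) (i : ℕ) :
    (fwdDiff 1)^[i + 1] (fun _ : ℕ => c) = fun _ => 0 := by
  induction i with
  | zero => ext n; simp [fwdDiff]
  | succ i ih =>
    rw [Function.iterate_succ_apply', ih]
    ext n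
    simp [fwdDiff]

end

theorem anm : S_ANM := by
  intro K _ _ q hq
  refine ⟨?_, ?_, ?_, ?_⟩
  · intro f g hf hg
    obtain ⟨C, hC, hf⟩ := an_nonneg hf
    obtain ⟨C', hC', hg⟩ := an_nonneg hg
    refine ⟨C + C', fun i n => ?_⟩
    have h1 : (fun n => f n + g n) = f + g := rfl
    rw [h1, fwdDiff_iter_add, Pi.add_apply]
    have hqi : 0 ≤ q ^ i := pow_nonneg hq.le i
    refine (IsUltrametricDist.norm_add_le_max _ _).trans (max_le ?_ ?_)
    · exact (hf i n).trans (mul_le_mul_of_nonneg_right (by linarith) hqi)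
    · exact (hg i n).trans (mul_le_mul_of_nonneg_right (by linarith) hqi)
  · intro f g hf hg
    obtain ⟨C, hC, hf⟩ := an_nonneg hf
    obtain ⟨C', hC', hg⟩ := an_nonneg hg
    exact ⟨C * C', fun i n => an_mul_aux q hq.le i f g C C' hC hC' hf hg n⟩
  · intro c
    refine ⟨‖c‖, fun i n => ?_⟩
    rcases i with _ | i
    · simp
    · rw [fwdDiff_iter_const]
      rw [norm_zero]
      positivity
  · intro x hx hxq
    refine ⟨1, fun i n => ?_⟩
    rw [fwdDiff_iter_pow, norm_mul, norm_pow, norm_pow, one_mul]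
    calc ‖x - 1‖ ^ i * ‖x‖ ^ n ≤ q ^ i * 1 :=
          mul_le_mul (pow_le_pow_left₀ (norm_nonneg _) hxq i) (pow_le_one₀ (norm_nonneg _) hx)
            (by positivity) (by positivity)
      _ = q ^ i := mul_one _

end Pool.Agent.Q156.EC
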