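import Pool.Agent.Q256.EC.Stm

set_option autoImplicit false

/-! Job EXC of project EC. -/

namespace Pool.Agent.Q156.EC

open Pool.Agent.Q256.EC

theorem piK_norm {K : Type} [NormedField K] {μ : K} : ‖piK K ‖μ‖‖ = ‖μ‖ := by
  unfold piK
  have h : ∃ x : K, ‖x‖ = ‖μ‖ := ⟨μ, rfl⟩
  rw [dif_pos h]
  exact h.choose_spec

theorem exc : S_ANM → S_ANP → S_EXC := by
  intro hANM hANP K _ _ q m hq hq1 hm hx e he c
  obtain ⟨hadd, hmul, hconst, hpow⟩ := hANM K q hq
  have hanp := hANP K q hq hq1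
  have hzero : An q (fun _ : ℕ => (0 : K)) := hconst 0
  unfold Ex at he
  induction he using Submodule.span_induction with
  | mem e he =>
    obtain ⟨μ, hμ, i, rfl⟩ := he
    have hr : (0 : ℝ) < ‖μ‖ := norm_pos_iff.2 hμ
    have hπ : ‖piK K ‖μ‖‖ = ‖μ‖ := piK_norm
    have hπ0 : piK K ‖μ‖ ≠ 0 := norm_pos_iff.1 (by rw [hπ]; exact hr)
    refine ⟨{‖μ‖}, fun r n => if r = ‖μ‖ then
      μ ^ c * ((μ / piK K ‖μ‖) ^ m) ^ n * ((c + m * n : ℕ) : K) ^ i else 0, ?_, ?_, ?_, ?_⟩
    · intro r hr'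
      rw [Finset.mem_singleton] at hr'
      rw [hr']
      exact ⟨hr, hπ⟩
    · intro r
      by_cases h : r = ‖μ‖
      · simp only [if_pos h]
        have h1 : ‖μ / piK K ‖μ‖‖ = 1 := by rw [norm_div, hπ, div_self hr.ne']
        apply hmul (fun n => μ ^ c * ((μ / piK K ‖μ‖) ^ m) ^ n) (fun n => ((c + m * n : ℕ) : K) ^ i)
        · apply hmul (fun _ => μ ^ c) (fun n => ((μ / piK K ‖μ‖) ^ m) ^ n) (hconst _)
          apply hpow
          · rw [norm_pow, h1, one_pow]
          · exact hx _ h1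
        · exact hanp c m i
      · simp only [if_neg h]
        exact hzero
    · intro r hr' n
      rw [Finset.mem_singleton] at hr'
      simp only [if_neg hr']
    · intro n
      rw [Finset.sum_singleton]
      simp only [if_true]
      have h2 : μ ^ (c + m * n) = μ ^ c * (piK K ‖μ‖ ^ (m * n) * ((μ / piK K ‖μ‖) ^ m) ^ n) := by
        rw [pow_add, ← pow_mul, ← mul_pow, mul_div_cancel₀ _ hπ0]
      rw [h2]
      ring
  | zero =>
    refine ⟨∅, fun _ _ => 0, by simp, fun _ => hzero, fun _ _ _ => rfl, fun n => by simp⟩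
  | add e f _ _ he hf =>
    obtain ⟨T, b, h1, h2, h3, h4⟩ := he
    obtain ⟨T', b', h1', h2', h3', h4'⟩ := hf
    refine ⟨T ∪ T', fun r n => b r n + b' r n, ?_, ?_, ?_, ?_⟩
    · intro r hr
      rcases Finset.mem_union.1 hr with h | h
      · exact h1 r h
      · exact h1' r h
    · intro r
      exact hadd _ _ (h2 r) (h2' r)
    · intro r hr n
      rw [Finset.mem_union, not_or] at hr
      simp only [h3 r hr.1 n, h3' r hr.2 n, add_zero]
    · intro n
      have e1 : ∑ r ∈ T ∪ T', piK K r ^ (m * n) * b r n = ∑ r ∈ T, piK K r ^ (m * n) * b r n := by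
        symm
        apply Finset.sum_subset Finset.subset_union_left
        intro r _ hr
        rw [h3 r hr n, mul_zero]
      have e2 : ∑ r ∈ T ∪ T', piK K r ^ (m * n) * b' r n = ∑ r ∈ T', piK K r ^ (m * n) * b' r n := by
        symm
        apply Finset.sum_subset Finset.subset_union_right
        intro r _ hr
        rw [h3' r hr n, mul_zero]
      simp only [mul_add, Finset.sum_add_distrib, e1, e2, ← h4 n, ← h4' n, Pi.add_apply]
  | smul a e _ he =>
    obtain ⟨T, b, h1, h2, h3, h4⟩ := he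
    refine ⟨T, fun r n => a * b r n, h1, ?_, ?_, ?_⟩
    · intro r
      exact hmul _ _ (hconst a) (h2 r)
    · intro r hr n
      simp only [h3 r hr n, mul_zero]
    · intro n
      rw [Pi.smul_apply, h4 n, smul_eq_mul, Finset.mul_sum]
      apply Finset.sum_congr rfl
      intro r _
      ring

end Pool.Agent.Q156.EC
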