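import Pool.Agent.Q256.EC.Stm

set_option autoImplicit false

/-! Job GGS of project EC. -/

namespace Pool.Agent.Q156.EC

open Pool.Agent.Q170.GP (GapP Sparse GapP.mono)

theorem ggs : Pool.Agent.Q256.EC.S_GGS := by
  classical
  refine ⟨?_, ?_⟩
  · intro p hp S hS
    obtain ⟨K, hK, h⟩ := hS
    obtain ⟨a, ha⟩ := h K hK (dvd_refl K)
    have h1 : ∀ j, ∃ μ : ℕ, (∀ n, a + j + K * n ∈ S) ∨ GapP p μ {n | a + j + K * n ∈ S} := by
      intro j
      rcases ha (a + j) (Nat.le_add_right _ _) with h2 | ⟨μ, h2⟩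
      · exact ⟨0, Or.inl h2⟩
      · exact ⟨μ, Or.inr h2⟩
    choose μ hμ using h1
    refine Pool.Agent.Q170.GP.split_of_gap p a K ((∑ j ∈ Finset.range K, μ j) + 1) hp hK
      (Nat.succ_pos _) S fun j hj => ?_
    rcases hμ j with h2 | h2
    · exact Or.inl h2
    · refine Or.inr (GapP.mono (by omega) h2 ?_)
      have h3 : μ j ≤ ∑ j ∈ Finset.range K, μ j :=
        Finset.single_le_sum (f := μ) (fun _ _ => Nat.zero_le _) (Finset.mem_range.2 hj)
      omega
  · intro k S hk hS
    have hstep : ∀ n ∈ S, ∀ m, n + k * m ∈ S := by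
      intro n hn m
      induction m with
      | zero => simpa using hn
      | succ m ih =>
        have := hS _ ih
        have e : n + k * (m + 1) = n + k * m + k := by ring
        rw [e]
        exact this
    let J := (Finset.range k).filter fun j => ∃ n ∈ S, n % k = j
    have hex : ∀ j : ℕ, ∃ c : ℕ, (∃ n ∈ S, n % k = j) → c ∈ S ∧ c % k = j ∧ ∀ n ∈ S, n % k = j → c ≤ n := by
      intro j
      by_cases h : ∃ n ∈ S, n % k = j
      · have h' : ∃ n, n ∈ S ∧ n % k = j := h
        refine ⟨Nat.find h', fun _ => ⟨(Nat.find_spec h').1, (Nat.find_spec h').2, fun n hn hnj => ?_⟩⟩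
        exact Nat.find_min' h' ⟨hn, hnj⟩
      · exact ⟨0, fun h' => absurd h' h⟩
    choose c hc using hex
    refine ⟨J.image fun j => (k, c j), ?_⟩
    ext n
    simp only [Set.mem_ofPred_eq, Finset.mem_image]
    constructor
    · intro hn
      have h1 : ∃ n' ∈ S, n' % k = n % k := ⟨n, hn, rfl⟩
      obtain ⟨h2, h3, h4⟩ := hc (n % k) h1
      have h5 := h4 n hn rfl
      refine ⟨_, ⟨n % k, Finset.mem_filter.2 ⟨Finset.mem_range.2 (Nat.mod_lt _ hk), h1⟩, rfl⟩,
        (n - c (n % k)) / k, ?_⟩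
      have h6 : k ∣ n - c (n % k) := (Nat.modEq_iff_dvd' h5).1 h3
      simp only
      rw [Nat.mul_div_cancel' h6]
      omega
    · rintro ⟨_, ⟨j, hj, rfl⟩, m, rfl⟩
      obtain ⟨h2, h3, h4⟩ := hc j (Finset.mem_filter.1 hj).2
      simp only
      rw [add_comm]
      exact hstep _ h2 m

end Pool.Agent.Q156.EC
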