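import Pool.Agent.Q256.EC.Stm

set_option autoImplicit false

/-! Job OLM of project EC: the limit orbit (after the proof of `Pool.Agent.Q170.GP.orbit_dml`). -/

namespace Pool.Agent.Q156.EC

open MvPolynomial Topology
open Pool.Agent.H936R2 (pt jac itA)
open Pool.Agent.Q170.GP

theorem olm : Pool.Agent.Q256.EC.S_OLM := by
  classical
  intro p hp hp2 ι _ F Ω hΩ hst H x hx
  have hstn : ∀ n, ∀ x ∈ Ω, (pt F)^[n] x ∈ Ω := by
    intro n
    induction n with
    | zero => exact fun x hx => hx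
    | succ n ih =>
      intro x hx
      rw [Function.iterate_succ_apply']
      exact hst _ (ih x hx)
  -- the classes modulo `p`
  choose lift hlift using exists_lift (p := p) (ι := ι)
  set fb : (ι → ZMod p) → (ι → ZMod p) := fun c => red (pt F (lift c)) with hfb
  have hfb1 : ∀ x, red (pt F x) = fb (red x) := fun x => red_pt_congr F (hlift _).symm
  have hfbn : ∀ n x, red ((pt F)^[n] x) = fb^[n] (red x) := by
    intro n
    induction n with
    | zero => exact fun x => rfl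
    | succ n ih =>
      intro x
      rw [Function.iterate_succ_apply', hfb1, ih, Function.iterate_succ_apply']
  obtain ⟨a, k, hk, hak⟩ : ∃ a k : ℕ, 0 < k ∧ ∀ n, a ≤ n → fb^[k] (fb^[n] (red x)) = fb^[n] (red x) := by
    obtain ⟨i, j, hij, h⟩ := Finite.exists_ne_map_eq_of_infinite fun n : ℕ => fb^[n] (red x)
    wlog hlt : i < j generalizing i j
    · exact this j i hij.symm h.symm (lt_of_le_of_ne (not_lt.1 hlt) hij.symm)
    refine ⟨i, j - i, by omega, fun n hn => ?_⟩
    obtain ⟨l, rfl⟩ := Nat.exists_eq_add_of_le hn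
    rw [← Function.iterate_add_apply, Nat.add_comm i l, ← Nat.add_assoc, Nat.add_comm (j - i) l,
      Nat.add_assoc, Nat.sub_add_cancel hlt.le, Function.iterate_add_apply,
      Function.iterate_add_apply _ l i, h]
  have hper : ∀ t, a ≤ t → red ((pt F)^[k] ((pt F)^[t] x)) = red ((pt F)^[t] x) := by
    intro t ht
    rw [hfbn, hfbn, hak t ht]
  have hloc : ∀ t0 : ℕ, ∃ (Φ : ι → MvPolynomial ι ℤ_[p]) (c : ℕ), 0 < c ∧ (a ≤ t0 →
      (∀ m : ℕ, 0 < m → c ∣ m → Idem Φ m) ∧
      (∀ (n : ℕ) (u : ι → ℤ_[p]), (pt F)^[k * n] (fun i => (pt F)^[t0] x i + p * u i) =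
        fun i => (pt F)^[t0] x i + p * (pt Φ)^[n] u i)) := by
    intro t0
    by_cases ht : a ≤ t0
    · obtain ⟨Φ, b, r, hΦ, hit⟩ := localise' F ((pt F)^[t0] x) k (hper t0 ht)
      obtain ⟨c, hc, hidem⟩ := Pool.Agent.Q170.GP.exists_idem Φ fun i => ⟨b i, fun j => itA F _ k i j, r i, hΦ i⟩
      exact ⟨Φ, c, hc, fun _ => ⟨hidem, hit⟩⟩
    · exact ⟨X, 1, one_pos, fun h => absurd h ht⟩
  choose Φ c hc hloc using hloc
  set m := ∏ t0 ∈ Finset.Ico a (a + k), c t0 with hm
  have hm0 : 0 < m := Finset.prod_pos fun t0 _ => hc t0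
  set K := k * m with hK
  refine ⟨a, K, Nat.mul_pos hk hm0, fun t ht => ?_⟩
  set t0 := a + (t - a) % k with ht0
  have ht0a : a ≤ t0 := Nat.le_add_right _ _
  have ht0k : t0 < a + k := by
    have := Nat.mod_lt (t - a) hk
    omega
  obtain ⟨q, hq⟩ : ∃ q, t = t0 + k * q := ⟨(t - a) / k, by
    have := Nat.div_add_mod (t - a) k
    omega⟩
  obtain ⟨hidem, hit⟩ := hloc t0 ht0a
  have hIm : Idem (Φ t0) m := hidem m hm0
    (Finset.dvd_prod_of_mem c (Finset.mem_Ico.2 ⟨ht0a, ht0k⟩))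
  have hred : red ((pt F)^[t] x) = red ((pt F)^[t0] x) := by
    have h3 : ∀ q, red ((pt F)^[t0 + k * q] x) = red ((pt F)^[t0] x) := by
      intro q
      induction q with
      | zero => rw [mul_zero, add_zero]
      | succ q ih =>
        have e1 : t0 + k * (q + 1) = k + (t0 + k * q) := by ring
        rw [e1, Function.iterate_add_apply, hper (t0 + k * q) (by omega), ih]
    rw [hq]
    exact h3 q
  set x0 := (pt F)^[t0] x with hx0
  obtain ⟨u, hu⟩ := exists_of_red hred
  have hsq : ∀ (h : MvPolynomial ι ℤ_[p]) (v : ι → ℤ_[p]) (n : ℕ),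
      Pool.Agent.Q170.GP.sq (Φ t0) m (resc x0 h) v n = eval ((pt F)^[K * n] (fun i => x0 i + p * v i)) h := by
    intro h v n
    have e1 : K * n = k * (m * n) := by rw [hK]; ring
    rw [e1, hit]
    unfold Pool.Agent.Q170.GP.sq
    rw [eval_resc]
  set Ω' : Set (ι → ℤ_[p]) := {v | (fun i => x0 i + p * v i) ∈ Ω} with hΩ'
  have hcont : Continuous fun v : ι → ℤ_[p] => (fun i => x0 i + (p : ℤ_[p]) * v i) :=
    continuous_pi fun i => continuous_const.add (continuous_const.mul (continuous_apply i))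
  obtain ⟨β, hβ, hβ1, hβ2⟩ := exists_limit (Φ t0) m hIm u Ω' (hΩ.preimage hcont) (by
    intro r
    change (fun i => x0 i + p * (pt (Φ t0))^[m * r] u i) ∈ Ω
    rw [← hit, ← hu]
    exact hstn _ _ (hstn _ _ hx))
  have hval : ∀ n (h : MvPolynomial ι ℤ_[p]),
      eval ((pt F)^[t + K * n] x) h = Pool.Agent.Q170.GP.sq (Φ t0) m (resc x0 h) u n := by
    intro n h
    rw [hsq, ← hu, ← Function.iterate_add_apply, add_comm t]
  by_cases hcase : ∀ h ∈ H, ∀ n, Pool.Agent.Q170.GP.sq (Φ t0) m (resc x0 h) β n = 0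
  · refine Or.inr ⟨fun i => x0 i + p * β i, hβ, fun n h hh => ?_, fun n i => ?_⟩
    · rw [← hsq]
      exact hcase h hh n
    · have e1 : K * n = k * (m * n) := by rw [hK]; ring
      have e2 : (pt F)^[t + K * n] x = fun i => x0 i + p * (pt (Φ t0))^[m * n] u i := by
        rw [add_comm t, Function.iterate_add_apply, hu, e1, hit]
      have e3 : (pt F)^[K * n] (fun i => x0 i + p * β i) =
          fun i => x0 i + p * (pt (Φ t0))^[m * n] β i := by
        rw [e1, hit]
      rw [e2, e3]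
      have h1 := hβ1 (X i) n
      unfold Pool.Agent.Q170.GP.sq at h1
      rw [eval_X, eval_X] at h1
      have h2 : x0 i + (p : ℤ_[p]) * (pt (Φ t0))^[m * n] u i -
          (x0 i + p * (pt (Φ t0))^[m * n] β i) =
          p * ((pt (Φ t0))^[m * n] u i - (pt (Φ t0))^[m * n] β i) := by ring
      simp only
      rw [h2, pow_succ']
      exact mul_dvd_mul_left _ h1
  · push Not at hcase
    obtain ⟨h, hh, n, hn⟩ := hcase
    obtain ⟨μ, hμ⟩ : ∃ μ : ℕ, ¬ (p : ℤ_[p]) ^ μ ∣ Pool.Agent.Q170.GP.sq (Φ t0) m (resc x0 h) β n := by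
      by_contra hcon
      push Not at hcon
      exact hn (eq_zero_of_dvd _ hcon)
    refine Or.inl ⟨μ, fun A hA hc X L hX hL => ?_⟩
    exact gap_seq hp2 (Pool.Agent.Q170.GP.sq (Φ t0) m (resc x0 h) β) (Pool.Agent.Q170.GP.sq (Φ t0) m (resc x0 h) u) (hβ1 _) (hβ2 _) μ
      ⟨n, hμ⟩ A (fun n hn => by
        rw [← hval]
        exact hA n hn h hh) hc X L hX hL

end Pool.Agent.Q156.EC
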