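import Pool.Agent.Q256.EC.Stm

set_option autoImplicit false

/-! Job SPD of project EC. -/

namespace Pool.Agent.Q156.EC

open Pool.Agent.Q256.EC

theorem spd : S_SPD := by
  intro δ D σ c m e hσ hσ1 hm h0 hstep hsm k
  have he : e ≠ 0 := by
    rintro rfl
    obtain ⟨C, hC⟩ := hsm 1
    have h1 : Filter.Tendsto (fun n : ℕ => C * (σ ^ 1) ^ n) Filter.atTop (nhds (C * 0)) :=
      (tendsto_pow_atTop_nhds_zero_of_lt_one (by positivity) (by simpa using hσ1)).const_mul C
    rw [mul_zero] at h1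
    have h2 : ∀ n : ℕ, (1 : ℝ) ≤ C * (σ ^ 1) ^ n := by
      intro n
      have := hC n
      simp only [pow_zero, abs_one] at this
      exact this
    have h3 : (1 : ℝ) ≤ 0 := ge_of_tendsto' h1 h2
    linarith
  obtain ⟨D', hD'⟩ : ∃ D', D' = max D 1 := ⟨_, rfl⟩
  have hD1 : 1 ≤ D' := by rw [hD']; exact le_max_right _ _
  have hDD : D ≤ D' := by rw [hD']; exact le_max_left _ _
  have hD0 : 0 ≤ D' := by linarith
  have hs : ∀ n j, δ (n + j) ≤ D' ^ j * δ n := by
    intro n j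
    induction j with
    | zero => simp
    | succ j ih =>
      calc δ (n + (j + 1)) ≤ D * δ (n + j) := hstep (n + j)
        _ ≤ D' * δ (n + j) := mul_le_mul_of_nonneg_right hDD (h0 _)
        _ ≤ D' * (D' ^ j * δ n) := mul_le_mul_of_nonneg_left ih hD0
        _ = D' ^ (j + 1) * δ n := by ring
  obtain ⟨C0, hC0⟩ := hsm (e * (m * k))
  obtain ⟨C1, hC1⟩ : ∃ C1, C1 = max C0 1 := ⟨_, rfl⟩
  have hC11 : 1 ≤ C1 := by rw [hC1]; exact le_max_right _ _
  have hC01 : C0 ≤ C1 := by rw [hC1]; exact le_max_left _ _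
  obtain ⟨τ, hτ⟩ : ∃ τ, τ = σ ^ k := ⟨_, rfl⟩
  have hτ0 : 0 < τ := by rw [hτ]; positivity
  have hτ1 : τ ≤ 1 := by rw [hτ]; exact pow_le_one₀ hσ.le hσ1.le
  have hq : ∀ q, δ (c + m * q) ≤ C1 * τ ^ (m * q) := by
    intro q
    have h1 := hC0 q
    have h2 : |δ (c + m * q) ^ e| = δ (c + m * q) ^ e := abs_of_nonneg (pow_nonneg (h0 _) _)
    simp only at h1
    rw [h2] at h1
    have h3 : (σ ^ (e * (m * k))) ^ q = (τ ^ (m * q)) ^ e := by
      rw [hτ, ← pow_mul, ← pow_mul, ← pow_mul]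
      congr 1
      ring
    rw [h3] at h1
    apply le_of_pow_le_pow_left₀ he (by positivity)
    refine h1.trans ?_
    rw [mul_pow]
    apply mul_le_mul_of_nonneg_right _ (by positivity)
    exact hC01.trans (le_self_pow₀ hC11 he)
  refine ⟨D' ^ m * C1 / τ ^ (c + m) + D' ^ c * δ 0 / τ ^ c, fun n => ?_⟩
  rw [abs_of_nonneg (h0 n), ← hτ, add_mul]
  have hA : 0 ≤ D' ^ m * C1 / τ ^ (c + m) * τ ^ n := by positivity
  have hB : 0 ≤ D' ^ c * δ 0 / τ ^ c * τ ^ n := by
    have := h0 0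
    positivity
  rcases Nat.lt_or_ge n c with hn | hn
  · have h1 : δ n ≤ D' ^ c * δ 0 / τ ^ c * τ ^ n := by
      have h2 := hs 0 n
      rw [zero_add] at h2
      have h3 : D' ^ n ≤ D' ^ c := pow_le_pow_right₀ hD1 hn.le
      have h4 : τ ^ c ≤ τ ^ n := pow_le_pow_of_le_one hτ0.le hτ1 hn.le
      rw [div_mul_eq_mul_div, le_div_iff₀ (by positivity)]
      calc δ n * τ ^ c ≤ (D' ^ n * δ 0) * τ ^ c := mul_le_mul_of_nonneg_right h2 (by positivity)
        _ ≤ (D' ^ c * δ 0) * τ ^ n := by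
          apply mul_le_mul _ h4 (by positivity) (by have := h0 0; positivity)
          exact mul_le_mul_of_nonneg_right h3 (h0 0)
    linarith
  · obtain ⟨j, rfl⟩ : ∃ j, n = c + j := ⟨n - c, by omega⟩
    have h1 : δ (c + j) ≤ D' ^ m * C1 / τ ^ (c + m) * τ ^ (c + j) := by
      have h2 := hs (c + m * (j / m)) (j % m)
      have h3 : c + m * (j / m) + j % m = c + j := by
        rw [add_assoc, Nat.div_add_mod]
      rw [h3] at h2
      have h4 : D' ^ (j % m) ≤ D' ^ m := pow_le_pow_right₀ hD1 (Nat.mod_lt _ hm).le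
      have h5 : τ ^ (m * (j / m)) * τ ^ (c + m) ≤ τ ^ (c + j) := by
        rw [← pow_add]
        apply pow_le_pow_of_le_one hτ0.le hτ1
        have := Nat.div_add_mod j m
        have := Nat.mod_lt j hm
        omega
      rw [div_mul_eq_mul_div, le_div_iff₀ (by positivity)]
      calc δ (c + j) * τ ^ (c + m)
          ≤ (D' ^ (j % m) * δ (c + m * (j / m))) * τ ^ (c + m) :=
            mul_le_mul_of_nonneg_right h2 (by positivity)
        _ ≤ (D' ^ m * (C1 * τ ^ (m * (j / m)))) * τ ^ (c + m) := by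
            apply mul_le_mul_of_nonneg_right _ (by positivity)
            exact mul_le_mul h4 (hq _) (h0 _) (by positivity)
        _ = D' ^ m * C1 * (τ ^ (m * (j / m)) * τ ^ (c + m)) := by ring
        _ ≤ D' ^ m * C1 * τ ^ (c + j) := mul_le_mul_of_nonneg_left h5 (by positivity)
    linarith

end Pool.Agent.Q156.EC
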