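import Pool.Agent.Q256.EC.Stm

set_option autoImplicit false

/-! Job UNP of project EC. -/

namespace Pool.Agent.Q156.EC

theorem norm_pow_sub_one_le {K : Type} [NormedField K] [IsUltrametricDist K] {y : K} (hy : ‖y‖ ≤ 1)
    (l : ℕ) : ‖y ^ l - 1‖ ≤ ‖y - 1‖ := by
  induction l with
  | zero => simp
  | succ l ih =>
    have h1 : y ^ (l + 1) - 1 = y * (y ^ l - 1) + (y - 1) := by ring
    rw [h1]
    refine (IsUltrametricDist.norm_add_le_max _ _).trans (max_le ?_ le_rfl)
    rw [norm_mul]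
    calc ‖y‖ * ‖y ^ l - 1‖ ≤ 1 * ‖y - 1‖ := mul_le_mul hy ih (norm_nonneg _) zero_le_one
      _ = ‖y - 1‖ := one_mul _

theorem unp : Pool.Agent.Q256.EC.S_UNP := by
  intro K _ _ _ q hq
  have hcomp : IsCompact (Metric.sphere (0 : K) 1) := isCompact_sphere 0 1
  obtain ⟨t, ht, hcov⟩ := Metric.totallyBounded_iff.1 hcomp.totallyBounded q hq
  refine ⟨(ht.toFinset.card).factorial, Nat.factorial_pos _, ?_⟩
  intro x hx
  have hmem : ∀ i : ℕ, ∃ y ∈ ht.toFinset, x ^ i ∈ Metric.ball y q := by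
    intro i
    have h1 : x ^ i ∈ Metric.sphere (0 : K) 1 := by
      rw [mem_sphere_zero_iff_norm, norm_pow, hx, one_pow]
    obtain ⟨y, hy, hy2⟩ := Set.mem_iUnion₂.1 (hcov h1)
    exact ⟨y, ht.mem_toFinset.2 hy, hy2⟩
  choose f hf1 hf2 using hmem
  have hcard : ht.toFinset.card < (Finset.range (ht.toFinset.card + 1)).card := by
    rw [Finset.card_range]
    omega
  obtain ⟨i, hi, j, hj, hij, hfij⟩ := Finset.exists_ne_map_eq_of_card_lt_of_maps_to hcard
    (fun i _ => hf1 i)
  rw [Finset.mem_range] at hi hj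
  have key : ∀ i j : ℕ, i < j → j < ht.toFinset.card + 1 → f i = f j →
      ‖x ^ (ht.toFinset.card).factorial - 1‖ ≤ q := by
    intro i j hlt hj he
    have h1 : ‖x ^ j - x ^ i‖ ≤ q := by
      have h2 := hf2 i
      have h3 := hf2 j
      rw [he] at h2
      rw [Metric.mem_ball] at h2 h3
      rw [← dist_eq_norm]
      refine (dist_triangle_max _ (f j) _).trans (max_le h3.le ?_)
      rw [dist_comm]
      exact h2.le
    have h4 : x ^ j - x ^ i = x ^ i * (x ^ (j - i) - 1) := by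
      rw [mul_sub, ← pow_add, Nat.add_sub_cancel' hlt.le, mul_one]
    rw [h4, norm_mul, norm_pow, hx, one_pow, one_mul] at h1
    have h5 : j - i ∣ (ht.toFinset.card).factorial := Nat.dvd_factorial (by omega) (by omega)
    obtain ⟨l, hl⟩ := h5
    rw [hl, pow_mul]
    refine (norm_pow_sub_one_le ?_ l).trans h1
    rw [norm_pow, hx, one_pow]
  rcases lt_or_gt_of_ne hij with h | h
  · exact key i j h hj hfij
  · exact key j i h hi hfij.symm

end Pool.Agent.Q156.EC
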