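import Mathlib

/-!
# Trees given by a parent function

`pgraph N par` is the graph on `Fin N` in which every vertex `v` other than `0` is joined to
`par v`.  If `par v < v` for all `v` other than `0`, this is a tree.
-/

set_option autoImplicit false

namespace Q156.ParTree

open SimpleGraph

section parent

variable (N : ℕ) (par : ℕ → ℕ)

/-- The graph on `Fin N` in which each vertex other than `0` is joined to its parent. -/
def pgraph : SimpleGraph (Fin N) :=
  SimpleGraph.fromRel fun u v => v.val ≠ 0 ∧ par v.val = u.val

variable {N par}

/-- Climb from a vertex as long as the edges above are kept. -/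
def top (par : ℕ → ℕ) (keep : ℕ → Bool) : ℕ → ℕ → ℕ
  | 0, v => v
  | k + 1, v => bif (!Nat.beq v 0) && keep v then top par keep k (par v) else v

theorem top_zero (keep : ℕ → Bool) (k : ℕ) : top par keep k 0 = 0 := by
  cases k <;> simp [top]

theorem top_keep {keep : ℕ → Bool} {k v : ℕ} (h0 : v ≠ 0) (hv : keep v = true) :
    top par keep (k + 1) v = top par keep k (par v) := by
  have h : Nat.beq v 0 = false := by
    rw [← Bool.not_eq_true, Nat.beq_eq]
    exact h0
  simp [top, h, hv]

theorem top_cut {keep : ℕ → Bool} {k v : ℕ} (hv : keep v = false) :
    top par keep k v = v := by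
  cases k <;> simp [top, hv]

theorem top_le (hpar : ∀ v ≠ 0, par v < v) (keep : ℕ → Bool) (k v : ℕ) :
    top par keep k v ≤ v := by
  induction k generalizing v with
  | zero => simp [top]
  | succ k ih =>
    by_cases h0 : v = 0
    · subst h0; simp [top]
    · cases hv : keep v with
      | true => rw [top_keep h0 hv]; exact (ih _).trans (hpar v h0).le
      | false => rw [top_cut hv]

theorem top_stable (hpar : ∀ v ≠ 0, par v < v) (keep : ℕ → Bool) (k v : ℕ) (h : v ≤ k) :
    top par keep (k + 1) v = top par keep k v := by
  induction k generalizing v with
  | zero =>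
    have : v = 0 := by omega
    subst this
    simp [top]
  | succ k ih =>
    by_cases h0 : v = 0
    · subst h0; simp [top]
    · cases hv : keep v with
      | true =>
        rw [top_keep h0 hv, top_keep h0 hv]
        apply ih
        have := hpar v h0
        omega
      | false => rw [top_cut hv, top_cut hv]

theorem top_par (hpar : ∀ v ≠ 0, par v < v) {keep : ℕ → Bool} {k v : ℕ} (h : v ≤ k + 1)
    (h0 : v ≠ 0) (hv : keep v = true) :
    top par keep (k + 1) (par v) = top par keep (k + 1) v := by
  rw [top_keep h0 hv]
  apply top_stable hpar
  have := hpar v h0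
  omega

theorem pgraph_adj {u v : Fin N} : (pgraph N par).Adj u v ↔
    u ≠ v ∧ ((v.val ≠ 0 ∧ par v.val = u.val) ∨ (u.val ≠ 0 ∧ par u.val = v.val)) := by
  unfold pgraph
  rw [SimpleGraph.fromRel_adj]

/-- The edge from a vertex to its parent. -/
def pedge (hN : 0 < N) (par : ℕ → ℕ) (v : Fin N) : Sym2 (Fin N) :=
  s(v, if h : par v.val < N then ⟨par v.val, h⟩ else ⟨0, hN⟩)

theorem pedge_eq (hN : 0 < N) {u v : Fin N} (h : par v.val = u.val) :
    pedge hN par v = s(v, u) := by
  unfold pedge
  have : par v.val < N := by rw [h]; exact u.2
  rw [dif_pos this]
  congr 2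

/-- Reachability after the deletion of edges, in terms of climbing. -/
theorem reachable_iff (hN : 0 < N) (hpar : ∀ v ≠ 0, par v < v) (S : Set (Sym2 (Fin N)))
    (keep : ℕ → Bool) (hk : ∀ v : Fin N, v.val ≠ 0 → (keep v.val = true ↔ pedge hN par v ∉ S))
    (u v : Fin N) : ((pgraph N par).deleteEdges S).Reachable u v ↔
      top par keep N u.val = top par keep N v.val := by
  obtain ⟨M, rfl⟩ : ∃ M, N = M + 1 := ⟨N - 1, by omega⟩
  constructor
  · intro h
    obtain ⟨w⟩ := h
    induction w with
    | nil => rfl
    | @cons a b c hab _ ih =>
      rw [← ih]
      rw [SimpleGraph.deleteEdges_adj, pgraph_adj] at hab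
      obtain ⟨⟨-, ⟨h0, h⟩ | ⟨h0, h⟩⟩, hS⟩ := hab
      · have hkb : keep b.val = true := by
          rw [hk b h0, pedge_eq hN h, Sym2.eq_swap]
          exact hS
        have := top_par hpar (k := M) (by have := b.2; omega) h0 hkb
        rw [h] at this
        exact this
      · have hka : keep a.val = true := by
          rw [hk a h0, pedge_eq hN h]
          exact hS
        have := top_par hpar (k := M) (by have := a.2; omega) h0 hka
        rw [h] at this
        exact this.symm
  · have key : ∀ (k : ℕ) (a b : Fin (M + 1)), b.val = top par keep k a.val →
        ((pgraph (M + 1) par).deleteEdges S).Reachable a b := by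
      intro k
      induction k with
      | zero =>
        intro a b h
        have : b = a := Fin.ext (by rw [h]; rfl)
        rw [this]
      | succ k ih =>
        intro a b h
        by_cases h0 : a.val = 0
        · rw [h0, top_zero] at h
          have : b = a := Fin.ext (by rw [h, h0])
          rw [this]
        · cases hv : keep a.val with
          | false =>
            rw [top_cut hv] at h
            have : b = a := Fin.ext h
            rw [this]
          | true =>
            rw [top_keep h0 hv] at h
            have hlt := hpar _ h0
            have ha := a.2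
            refine Reachable.trans (Adj.reachable ?_) (ih ⟨par a.val, by omega⟩ b h)
            rw [SimpleGraph.deleteEdges_adj, pgraph_adj]
            refine ⟨⟨?_, Or.inr ⟨h0, rfl⟩⟩, ?_⟩
            · intro heq
              have := congrArg Fin.val heq
              simp only at this
              omega
            · have := (hk a h0).1 hv
              rw [pedge_eq (u := ⟨par a.val, by omega⟩) hN rfl] at this
              exact this
    intro h
    have hlt : top par keep (M + 1) u.val < M + 1 :=
      lt_of_le_of_lt (top_le hpar _ _ _) u.2
    exact (key (M + 1) u ⟨_, hlt⟩ rfl).trans (key (M + 1) v ⟨_, hlt⟩ h).symm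


/-- The graph given by a decreasing parent function is a tree. -/
theorem pgraph_isTree (hN : 0 < N) (hpar : ∀ v ≠ 0, par v < v) : (pgraph N par).IsTree := by
  have hroot : ∀ v : ℕ, v < N → top par (fun _ => true) N v = 0 := by
    have key : ∀ k v : ℕ, v ≤ k → top par (fun _ => true) k v = 0 := by
      intro k
      induction k with
      | zero =>
        intro v hv
        have : v = 0 := by omega
        subst this
        rfl
      | succ k ih =>
        intro v hv
        by_cases h0 : v = 0
        · subst h0
          exact top_zero _ _
        · rw [top_keep h0 rfl]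
          apply ih
          have := hpar v h0
          omega
    intro v hv
    exact key N v hv.le
  refine ⟨?_, ?_⟩
  · have key : ∀ u v : Fin N, (pgraph N par).Reachable u v := by
      intro u v
      have := (reachable_iff hN hpar ∅ (fun _ => true)
        (fun v _ => by simp) u v).2 (by rw [hroot _ u.2, hroot _ v.2])
      rwa [SimpleGraph.deleteEdges_empty] at this
    exact { preconnected := key, nonempty := ⟨⟨0, hN⟩⟩ }
  · have hpinj : ∀ u v : Fin N, u.val ≠ 0 → v.val ≠ 0 →
        pedge hN par u = pedge hN par v → u = v := by
      intro u v hu hv h
      have h1 := hpar _ hu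
      have h2 := hpar _ hv
      have h3 := u.2
      have h4 := v.2
      rw [pedge_eq (u := ⟨par u.val, by omega⟩) hN rfl,
        pedge_eq (u := ⟨par v.val, by omega⟩) hN rfl, Sym2.eq_iff] at h
      rcases h with ⟨h, -⟩ | ⟨h, h'⟩
      · exact h
      · have e1 := congrArg Fin.val h
        have e2 := congrArg Fin.val h'
        simp only at e1 e2
        omega
    have key : ∀ v u : Fin N, v.val ≠ 0 → par v.val = u.val →
        ¬ ((pgraph N par).deleteEdges {s(v, u)}).Reachable v u := by
      intro v u h0 h hr
      have hk : ∀ w : Fin N, w.val ≠ 0 →
          ((fun x : ℕ => decide (x ≠ v.val)) w.val = true ↔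
            pedge hN par w ∉ ({s(v, u)} : Set (Sym2 (Fin N)))) := by
        intro w hw
        rw [← pedge_eq (u := u) hN h, Set.mem_singleton_iff, decide_eq_true_eq]
        constructor
        · intro hne heq
          exact hne (congrArg Fin.val (hpinj w v hw h0 heq))
        · intro hne heq
          exact hne (by rw [Fin.ext heq])
      have := (reachable_iff hN hpar {s(v, u)} (fun x => decide (x ≠ v.val)) hk v u).1 hr
      have h1 : top par (fun x => decide (x ≠ v.val)) N v.val = v.val :=
        top_cut (by simp)
      have h2 := top_le hpar (fun x => decide (x ≠ v.val)) N u.val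
      have h3 := hpar _ h0
      omega
    rw [SimpleGraph.isAcyclic_iff_forall_adj_isBridge]
    intro a b hab
    rw [SimpleGraph.isBridge_iff]
    rw [pgraph_adj] at hab
    refine ?_
    obtain ⟨-, ⟨h0, h⟩ | ⟨h0, h⟩⟩ := hab
    · have := key b a h0 h
      intro hr
      apply this
      rw [Sym2.eq_swap]
      exact hr.symm
    · exact key a b h0 h

end parent

end Q156.ParTree
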