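import Mathlib

set_option autoImplicit false

/-!
# Permanents of sign matrices of Ferrers shape, modulo odd numbers

For `h` nondecreasing with `h i ≤ N`, the permanent of the `N × N` sign matrix with `-1` exactly at
the places `(r, i)` with `r < h i` is congruent to `(-2)^N ∑_{x < M} (-1)^x ∏_i (x + h i - i)`
modulo every odd `M`. This gives the `3`-adic valuation of some permanents, and the subset sums of
integers with different valuations are different.
-/

namespace Pool.Agent.Q156.PermFerrers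

open Finset Equiv

/-! ## Laplace expansion along the first column -/

/-- the permutation with `0 ↦ c` and `i + 1 ↦ c.succAbove (e i)` -/
def build {n : ℕ} (x : Fin (n + 1) × Perm (Fin n)) : Perm (Fin (n + 1)) :=
  (finSuccEquiv n).trans ((Equiv.optionCongr x.2).trans (finSuccEquiv' x.1).symm)

theorem build_zero {n : ℕ} (x : Fin (n + 1) × Perm (Fin n)) : build x 0 = x.1 := by
  simp [build]

theorem build_succ {n : ℕ} (x : Fin (n + 1) × Perm (Fin n)) (i : Fin n) :
    build x i.succ = x.1.succAbove (x.2 i) := by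
  simp [build]

theorem build_bij (n : ℕ) : Function.Bijective (build (n := n)) := by
  rw [Fintype.bijective_iff_injective_and_card]
  constructor
  · rintro ⟨c, e⟩ ⟨c', e'⟩ h
    have h0 : c = c' := by
      have := congrArg (fun σ : Perm (Fin (n + 1)) => σ 0) h
      simpa only [build_zero] using this
    subst h0
    have h1 : e = e' := by
      ext1 i
      have := congrArg (fun σ : Perm (Fin (n + 1)) => σ i.succ) h
      simp only [build_succ] at this
      exact Fin.succAbove_right_injective this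
    rw [h1]
  · simp [Fintype.card_perm, Nat.factorial_succ]

theorem permanent_expand {n : ℕ} (M : Matrix (Fin (n + 1)) (Fin (n + 1)) ℤ) :
    M.permanent = ∑ c : Fin (n + 1), M c 0 * (M.submatrix c.succAbove Fin.succ).permanent := by
  unfold Matrix.permanent
  rw [← (build_bij n).sum_comp, Fintype.sum_prod_type]
  apply Finset.sum_congr rfl
  intro c _
  rw [Finset.mul_sum]
  apply Finset.sum_congr rfl
  intro e _
  rw [Fin.prod_univ_succ, build_zero]
  congr 1

/-! ## Sign matrices of Ferrers shape -/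

/-- `-1` exactly at the places `(r, i)` with `r < h i` -/
def FM (N : ℕ) (h : Fin N → ℕ) : Matrix (Fin N) (Fin N) ℤ :=
  fun r i => if (r : ℕ) < h i then -1 else 1

/-- the shape after the deletion of the row `c` -/
def del {N : ℕ} (c : ℕ) (h : Fin N → ℕ) : Fin N → ℕ := fun i => if c < h i then h i - 1 else h i

theorem sub_entry {N : ℕ} (c : Fin (N + 1)) (r : Fin N) (H : ℕ) :
    (((c.succAbove r : Fin (N + 1)) : ℕ) < H) ↔ ((r : ℕ) < if (c : ℕ) < H then H - 1 else H) := by
  by_cases h : (r : ℕ) < c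
  · have e : c.succAbove r = r.castSucc := Fin.succAbove_of_castSucc_lt _ _ (by
      rw [Fin.lt_def]
      simpa using h)
    rw [e, Fin.val_castSucc]
    split_ifs <;> omega
  · have e : c.succAbove r = r.succ := Fin.succAbove_of_le_castSucc _ _ (by
      rw [Fin.le_def]
      simp
      omega)
    rw [e, Fin.val_succ]
    split_ifs <;> omega

/-- the telescoping identity -/
theorem tele (k : ℕ) : ∀ (g : Fin k → ℕ), Monotone g → ∀ n : ℕ, (∀ i, g i ≤ n) → ∀ x : ℤ,
    ∑ c ∈ Finset.range n, ∏ i : Fin k, (x + (del c g i : ℤ) - i) =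
      (x + n - k) * ∏ i : Fin k, (x + 1 + (g i : ℤ) - (i + 1)) -
        x * ∏ i : Fin k, (x + (g i : ℤ) - (i + 1)) := by
  induction k with
  | zero =>
    intro g _ n _ x
    simp
  | succ k ih =>
    intro g hg n hn x
    obtain ⟨H, hH⟩ : ∃ H, H = g (Fin.last k) := ⟨_, rfl⟩
    have hHn : H ≤ n := by rw [hH]; exact hn _
    have hg' : Monotone (fun i : Fin k => g i.castSucc) := by
      intro a b hab
      apply hg
      exact hab
    have hle : ∀ i : Fin k, g i.castSucc ≤ H := by
      intro i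
      rw [hH]
      exact hg (Fin.le_last _)
    have h1 := ih (fun i => g i.castSucc) hg' H hle x
    have e0 : ∀ c, ∏ i : Fin (k + 1), (x + (del c g i : ℤ) - i) =
        (∏ i : Fin k, (x + (del c (fun i => g i.castSucc) i : ℤ) - i)) *
          (x + ((if c < H then H - 1 else H : ℕ) : ℤ) - k) := by
      intro c
      rw [Fin.prod_univ_castSucc, hH]
      rfl
    have e1 : ∑ c ∈ Finset.range H, ∏ i : Fin (k + 1), (x + (del c g i : ℤ) - i) =
        (∑ c ∈ Finset.range H, ∏ i : Fin k, (x + (del c (fun i => g i.castSucc) i : ℤ) - i)) *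
          (x + H - 1 - k) := by
      rw [Finset.sum_mul]
      apply Finset.sum_congr rfl
      intro c hc
      have hc' := Finset.mem_range.1 hc
      rw [e0, if_pos hc', Nat.cast_sub (by omega)]
      push_cast
      ring
    have e2 : ∑ c ∈ Finset.Ico H n, ∏ i : Fin (k + 1), (x + (del c g i : ℤ) - i) =
        (n - H) * ((∏ i : Fin k, (x + 1 + (g i.castSucc : ℤ) - (i + 1))) * (x + H - k)) := by
      rw [Finset.sum_congr rfl (g := fun _ => (∏ i : Fin k,
        (x + 1 + (g i.castSucc : ℤ) - (i + 1))) * (x + H - k))]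
      · rw [Finset.sum_const, Nat.card_Ico, nsmul_eq_mul, Nat.cast_sub hHn]
      · intro c hc
        rw [Finset.mem_Ico] at hc
        rw [e0, if_neg (by omega)]
        congr 1
        apply Finset.prod_congr rfl
        intro i _
        have h2 := hle i
        have h3 : del c (fun i : Fin k => g i.castSucc) i = g i.castSucc := by
          unfold del
          rw [if_neg]
          show ¬ c < g i.castSucc
          omega
        rw [h3]
        ring
    rw [← Finset.sum_range_add_sum_Ico _ hHn, e1, h1, e2, Fin.prod_univ_castSucc,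
      Fin.prod_univ_castSucc, ← hH]
    simp only [Fin.val_castSucc, Fin.val_last]
    push_cast
    ring

/-- the alternating sum -/
def S (M : ℕ) (P : ℤ → ℤ) : ℤ := ∑ x ∈ Finset.range M, (-1) ^ x * P x

theorem S_tele (M : ℕ) (G : ℤ → ℤ) :
    S M (fun x => G (x + 1) + G x) = G 0 - (-1) ^ M * G M := by
  unfold S
  induction M with
  | zero => simp
  | succ M ih =>
    rw [Finset.sum_range_succ, ih]
    push_cast
    rw [pow_succ]
    ring

theorem S_one {M : ℕ} (hM : Odd M) : S M (fun _ => 1) = 1 := by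
  have h := S_tele M (fun _ => 1)
  rw [hM.neg_one_pow] at h
  unfold S at *
  have : ∑ x ∈ Finset.range M, (-1 : ℤ) ^ x * (1 + 1) =
      2 * ∑ x ∈ Finset.range M, (-1 : ℤ) ^ x * 1 := by
    rw [Finset.mul_sum]
    apply Finset.sum_congr rfl
    intro x _
    ring
  rw [this] at h
  linarith

/-- the permanent of a sign matrix of Ferrers shape modulo an odd number -/
theorem main {M : ℕ} (hM : Odd M) (N : ℕ) : ∀ (h : Fin N → ℕ), Monotone h → (∀ i, h i ≤ N) →
    (M : ℤ) ∣ (FM N h).permanent - (-2) ^ N * S M (fun x => ∏ i : Fin N, (x + (h i : ℤ) - i)) := by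
  induction N with
  | zero =>
    intro h _ _
    rw [Matrix.permanent_isEmpty]
    have : (fun x : ℤ => ∏ i : Fin 0, (x + (h i : ℤ) - i)) = fun _ => 1 := by
      funext x
      simp
    rw [this, S_one hM]
    simp
  | succ N ih =>
    intro h hmono hle
    obtain ⟨g, hg⟩ : ∃ g : Fin N → ℕ, g = fun i => h i.succ := ⟨_, rfl⟩
    have hgmono : Monotone g := by
      rw [hg]
      intro a b hab
      apply hmono
      exact Fin.succ_le_succ_iff.2 hab
    have hgle : ∀ i, g i ≤ N + 1 := by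
      intro i
      rw [hg]
      exact hle _
    have hg0 : ∀ i, h 0 ≤ g i := by
      intro i
      rw [hg]
      exact hmono (Fin.zero_le _)
    have hsub : ∀ c : Fin (N + 1), (FM (N + 1) h).submatrix c.succAbove Fin.succ =
        FM N (del c g) := by
      intro c
      ext r i
      rw [Matrix.submatrix_apply, hg]
      unfold FM del
      have := sub_entry c r (h i.succ)
      by_cases h1 : ((c.succAbove r : Fin (N + 1)) : ℕ) < h i.succ
      · rw [if_pos h1, if_pos (this.1 h1)]
      · rw [if_neg h1, if_neg (fun h2 => h1 (this.2 h2))]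
    have hdmono : ∀ c : Fin (N + 1), Monotone (del c g) := by
      intro c a b hab
      have := hgmono hab
      unfold del
      split_ifs <;> omega
    have hdle : ∀ c : Fin (N + 1), ∀ i, del c g i ≤ N := by
      intro c i
      have := hgle i
      have := c.2
      unfold del
      split_ifs <;> omega
    obtain ⟨Q, hQ⟩ : ∃ Q : ℤ → ℤ, Q = fun x => ∏ i : Fin N, (x + (g i : ℤ) - (i + 1)) := ⟨_, rfl⟩
    obtain ⟨Qc, hQc⟩ : ∃ Qc : ℕ → ℤ → ℤ, Qc = fun c x => ∏ i : Fin N, (x + (del c g i : ℤ) - i) :=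
      ⟨_, rfl⟩
    have ih' : ∀ c : Fin (N + 1), (M : ℤ) ∣ (FM N (del c g)).permanent - (-2) ^ N * S M (Qc c) := by
      intro c
      rw [hQc]
      exact ih (del c g) (hdmono c) (hdle c)
    have hent : ∀ c : Fin (N + 1), FM (N + 1) h c 0 = 1 - 2 * (if (c : ℕ) < h 0 then 1 else 0) := by
      intro c
      unfold FM
      split_ifs <;> norm_num
    rw [permanent_expand]
    have e1 : (M : ℤ) ∣ (∑ c : Fin (N + 1), FM (N + 1) h c 0 *
        ((FM (N + 1) h).submatrix c.succAbove Fin.succ).permanent) -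
        ∑ c : Fin (N + 1), FM (N + 1) h c 0 * ((-2) ^ N * S M (Qc c)) := by
      rw [← Finset.sum_sub_distrib]
      apply Finset.dvd_sum
      intro c _
      rw [hsub, ← mul_sub]
      exact Dvd.dvd.mul_left (ih' c) _
    have hsmall : ∀ c, c < h 0 → S M (Qc c) = S M Q := by
      intro c hc
      rw [hQc, hQ]
      congr 1
      funext x
      apply Finset.prod_congr rfl
      intro i _
      have := hg0 i
      unfold del
      rw [if_pos (by omega), Nat.cast_sub (by omega)]
      push_cast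
      ring
    have hSlin : ∀ n, ∑ c ∈ Finset.range n, S M (Qc c) = S M (fun x => ∑ c ∈ Finset.range n, Qc c x) := by
      intro n
      unfold S
      rw [Finset.sum_comm]
      apply Finset.sum_congr rfl
      intro x _
      rw [Finset.mul_sum]
    have h0le : h 0 ≤ N + 1 := hle 0
    have e2 : ∑ c : Fin (N + 1), FM (N + 1) h c 0 * ((-2) ^ N * S M (Qc c)) =
        (-2) ^ N * (S M (fun x => (x + 1) * Q (x + 1) - x * Q x) - 2 * (h 0 * S M Q)) := by
      have e3 : ∀ c : Fin (N + 1), FM (N + 1) h c 0 * ((-2) ^ N * S M (Qc c)) =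
          (-2) ^ N * (S M (Qc c)) - (-2) ^ N * 2 * (if (c : ℕ) < h 0 then S M (Qc c) else 0) := by
        intro c
        rw [hent]
        split_ifs <;> ring
      rw [Finset.sum_congr rfl (fun c _ => e3 c), Finset.sum_sub_distrib, ← Finset.mul_sum,
        ← Finset.mul_sum, Fin.sum_univ_eq_sum_range (fun c => S M (Qc c)),
        Fin.sum_univ_eq_sum_range (fun c => if c < h 0 then S M (Qc c) else 0), hSlin]
      have e4 : (fun x => ∑ c ∈ Finset.range (N + 1), Qc c x) =
          fun x => (x + 1) * Q (x + 1) - x * Q x := by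
        funext x
        rw [hQc, hQ]
        have := tele N g hgmono (N + 1) hgle x
        push_cast at this
        rw [this]
        ring
      have e5 : ∑ c ∈ Finset.range (N + 1), (if c < h 0 then S M (Qc c) else 0) =
          h 0 * S M Q := by
        rw [← Finset.sum_filter]
        have e6 : (Finset.range (N + 1)).filter (fun c => c < h 0) = Finset.range (h 0) := by
          ext c
          rw [Finset.mem_filter, Finset.mem_range, Finset.mem_range]
          omega
        rw [e6, Finset.sum_congr rfl (fun c hc => hsmall c (Finset.mem_range.1 hc)),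
          Finset.sum_const, Finset.card_range, nsmul_eq_mul]
      rw [e4, e5]
      ring
    have e7 : S M (fun x => (x + 1) * Q (x + 1) - x * Q x) =
        M * Q M - 2 * S M (fun x => x * Q x) := by
      have h1 := S_tele M (fun x => x * Q x)
      rw [hM.neg_one_pow] at h1
      have h2 : S M (fun x => (x + 1) * Q (x + 1) - x * Q x) =
          S M (fun x => (x + 1) * Q (x + 1) + x * Q x) - 2 * S M (fun x => x * Q x) := by
        unfold S
        rw [Finset.mul_sum, ← Finset.sum_sub_distrib]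
        apply Finset.sum_congr rfl
        intro x _
        ring
      rw [h2, h1]
      ring
    have e8 : S M (fun x => ∏ i : Fin (N + 1), (x + (h i : ℤ) - i)) =
        S M (fun x => x * Q x) + h 0 * S M Q := by
      unfold S
      rw [Finset.mul_sum, ← Finset.sum_add_distrib]
      apply Finset.sum_congr rfl
      intro x _
      simp only [hQ, hg, Fin.prod_univ_succ, Fin.val_zero, Fin.val_succ]
      push_cast
      ring
    rw [e2, e7] at e1
    rw [e8]
    have e9 : (∑ c : Fin (N + 1), FM (N + 1) h c 0 *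
        ((FM (N + 1) h).submatrix c.succAbove Fin.succ).permanent) -
        (-2) ^ (N + 1) * (S M (fun x => x * Q x) + h 0 * S M Q) =
        ((∑ c : Fin (N + 1), FM (N + 1) h c 0 *
        ((FM (N + 1) h).submatrix c.succAbove Fin.succ).permanent) -
        (-2) ^ N * (M * Q M - 2 * S M (fun x => x * Q x) - 2 * (h 0 * S M Q))) +
        M * ((-2) ^ N * Q M) := by
      rw [pow_succ]
      ring
    rw [e9]
    exact Dvd.dvd.add e1 (Dvd.intro _ rfl)

/-! ## Valuations -/

theorem pow_odd_mod (b : ℕ) (hb : Odd b) (y : ℤ) : (3 : ℤ) ∣ y ^ b - y := by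
  obtain ⟨k, rfl⟩ := hb
  induction k with
  | zero => simp
  | succ k ih =>
    have h1 : (3 : ℤ) ∣ y ^ 3 - y := by
      have h2 : y % 3 = 0 ∨ y % 3 = 1 ∨ y % 3 = 2 := by omega
      apply Int.dvd_of_emod_eq_zero
      rcases h2 with h2 | h2 | h2 <;> simp [Int.sub_emod, pow_succ, Int.mul_emod, h2]
    have e : y ^ (2 * (k + 1) + 1) - y = y ^ 2 * (y ^ (2 * k + 1) - y) + (y ^ 3 - y) := by ring
    rw [e]
    exact Dvd.dvd.add (Dvd.dvd.mul_left ih _) h1

theorem alt_sum (L : ℕ) : 2 * ∑ y ∈ Finset.range (2 * L + 1), (-1 : ℤ) ^ y * y = 2 * L := by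
  induction L with
  | zero => simp
  | succ L ih =>
    have e : 2 * (L + 1) + 1 = (2 * L + 1) + 1 + 1 := by ring
    have h : ((-1 : ℤ)) ^ (2 * L) = 1 := by
      rw [pow_mul]
      norm_num
    have h1 : ((-1 : ℤ)) ^ (2 * L + 1) = -1 := by rw [pow_succ, h]; norm_num
    have h2 : ((-1 : ℤ)) ^ (2 * L + 1 + 1) = 1 := by rw [pow_succ, h1]; norm_num
    rw [e, Finset.sum_range_succ, Finset.sum_range_succ, mul_add, mul_add, ih, h1, h2]
    push_cast
    ring

theorem sum_three (L : ℕ) (F : ℕ → ℤ) : ∑ x ∈ Finset.range (3 * L), F x =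
    ∑ y ∈ Finset.range L, (F (3 * y) + F (3 * y + 1) + F (3 * y + 2)) := by
  induction L with
  | zero => simp
  | succ L ih =>
    have e : 3 * (L + 1) = 3 * L + 1 + 1 + 1 := by ring
    rw [e, Finset.sum_range_succ, Finset.sum_range_succ, Finset.sum_range_succ, ih,
      Finset.sum_range_succ]
    ring

/-- the `3`-adic valuation of the alternating sum -/
theorem S_val {a b d K : ℕ} (hb : Odd b) (hba : b < a) (hbd : b < d) (hK : 2 ≤ K) :
    ∃ W : ℤ, (3 : ℤ) ^ (b + 1) ∣ S (3 ^ K) (fun x => (x + 1) ^ a * x ^ b * (x - 1) ^ d) -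
      3 ^ b * W ∧ ¬ (3 : ℤ) ∣ W := by
  obtain ⟨L, hL⟩ : ∃ L, L = 3 ^ (K - 1) := ⟨_, rfl⟩
  have hL3 : 3 ^ K = 3 * L := by
    rw [hL, ← pow_succ']
    congr 1
    omega
  have hLodd : Odd L := by
    rw [hL]
    exact Odd.pow (by decide)
  have hLdvd : 3 ∣ L := by
    rw [hL]
    exact dvd_pow_self 3 (by omega)
  refine ⟨∑ y ∈ Finset.range L, (-1 : ℤ) ^ (3 * y) *
    ((3 * (y : ℤ) + 1) ^ a * y ^ b * (3 * (y : ℤ) - 1) ^ d), ?_, ?_⟩
  · unfold S
    rw [hL3, sum_three, Finset.mul_sum, ← Finset.sum_sub_distrib]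
    apply Finset.dvd_sum
    intro y _
    obtain ⟨a', rfl⟩ : ∃ a', a = b + 1 + a' := ⟨a - (b + 1), by omega⟩
    obtain ⟨d', rfl⟩ : ∃ d', d = b + 1 + d' := ⟨d - (b + 1), by omega⟩
    refine ⟨(-1) ^ (3 * y + 1) * ((3 * (y : ℤ) + 2) ^ (b + 1 + a') * (3 * (y : ℤ) + 1) ^ b *
      (3 ^ d' * (y : ℤ) ^ (b + 1 + d'))) + (-1) ^ (3 * y + 2) * (3 ^ a' * ((y : ℤ) + 1) ^ (b + 1 + a') *
      (3 * (y : ℤ) + 2) ^ b * (3 * (y : ℤ) + 1) ^ (b + 1 + d')), ?_⟩
    push_cast
    have e1 : (3 * (y : ℤ) + 1 - 1) ^ (b + 1 + d') = 3 ^ (b + 1) * (3 ^ d' * (y : ℤ) ^ (b + 1 + d')) := by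
      have : 3 * (y : ℤ) + 1 - 1 = 3 * y := by ring
      rw [this, mul_pow, pow_add 3 (b + 1) d']
      ring
    have e2 : (3 * (y : ℤ) + 2 + 1) ^ (b + 1 + a') =
        3 ^ (b + 1) * (3 ^ a' * ((y : ℤ) + 1) ^ (b + 1 + a')) := by
      have : 3 * (y : ℤ) + 2 + 1 = 3 * (y + 1) := by ring
      rw [this, mul_pow, pow_add 3 (b + 1) a']
      ring
    have e3 : (3 * (y : ℤ)) ^ b = 3 ^ b * (y : ℤ) ^ b := mul_pow _ _ _
    have e4 : 3 * (y : ℤ) + 1 + 1 = 3 * y + 2 := by ring
    have e5 : 3 * (y : ℤ) + 2 - 1 = 3 * y + 1 := by ring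
    rw [e1, e2, e3, e4, e5]
    ring
  · intro hW
    have h1 : (3 : ℤ) ∣ (∑ y ∈ Finset.range L, (-1 : ℤ) ^ (3 * y) *
        ((3 * (y : ℤ) + 1) ^ a * y ^ b * (3 * (y : ℤ) - 1) ^ d)) -
        (-1) ^ d * ∑ y ∈ Finset.range L, (-1 : ℤ) ^ y * y := by
      rw [Finset.mul_sum, ← Finset.sum_sub_distrib]
      apply Finset.dvd_sum
      intro y _
      have c1 : (3 : ℤ) ∣ (3 * (y : ℤ) + 1) ^ a - 1 := by
        have := sub_dvd_pow_sub_pow (3 * (y : ℤ) + 1) 1 a
        rw [one_pow] at this
        exact dvd_trans ⟨y, by ring⟩ this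
      have c2 : (3 : ℤ) ∣ (3 * (y : ℤ) - 1) ^ d - (-1) ^ d :=
        dvd_trans ⟨y, by ring⟩ (sub_dvd_pow_sub_pow (3 * (y : ℤ) - 1) (-1) d)
      have c3 := pow_odd_mod b hb y
      obtain ⟨u, hu⟩ := c1
      obtain ⟨v, hv⟩ := c2
      obtain ⟨w, hw⟩ := c3
      have e6 : ((-1 : ℤ)) ^ (3 * y) = (-1) ^ y := by
        rw [pow_mul]
        norm_num
      have hu' : (3 * (y : ℤ) + 1) ^ a = 1 + 3 * u := by linarith
      have hv' : (3 * (y : ℤ) - 1) ^ d = (-1) ^ d + 3 * v := by linarith
      have hw' : (y : ℤ) ^ b = y + 3 * w := by linarith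
      rw [e6, hu', hv', hw']
      refine ⟨(-1) ^ y * (u * (y + 3 * w) * ((-1) ^ d + 3 * v) + w * ((-1) ^ d + 3 * v) + y * v), ?_⟩
      ring
    have h2 : (3 : ℤ) ∣ (-1) ^ d * ∑ y ∈ Finset.range L, (-1 : ℤ) ^ y * y := by
      have := dvd_sub hW h1
      rwa [sub_sub_cancel] at this
    have h3 : (3 : ℤ) ∣ ∑ y ∈ Finset.range L, (-1 : ℤ) ^ y * y := by
      rcases Nat.even_or_odd d with hd | hd
      · rwa [hd.neg_one_pow, one_mul] at h2
      · rw [hd.neg_one_pow, neg_one_mul] at h2
        exact (dvd_neg.1 h2)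
    obtain ⟨l, hl⟩ := hLodd
    have h4 := alt_sum l
    rw [hl] at h3 hLdvd
    omega

/-! ## Subset sums -/

/-- integers with different valuations have different subset sums -/
theorem subset_sums (J : ℕ) (a : ℕ → ℤ) (e : ℕ → ℕ) (he : StrictMono e)
    (h1 : ∀ j < J, (3 : ℤ) ^ e j ∣ a j) (h2 : ∀ j < J, ¬ (3 : ℤ) ^ (e j + 1) ∣ a j)
    (D D' : Finset ℕ) (hD : D ⊆ Finset.range J) (hD' : D' ⊆ Finset.range J)
    (h : ∑ j ∈ D, a j = ∑ j ∈ D', a j) : D = D' := by
  classical
  have key : ∀ D D' : Finset ℕ, D ⊆ Finset.range J → D' ⊆ Finset.range J →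
      ∑ j ∈ D, a j = ∑ j ∈ D', a j → ∀ j₀ ∈ D \ D', (∀ j ∈ symmDiff D D', j₀ ≤ j) → False := by
    intro D D' hD hD' h j₀ hj₀ hmin
    have hj : j₀ < J := Finset.mem_range.1 (hD (Finset.mem_sdiff.1 hj₀).1)
    have e1 : ∑ j ∈ D \ D', a j = ∑ j ∈ D' \ D, a j := by
      have s1 := Finset.sum_sdiff_sub_sum_sdiff (s₁ := D) (s₂ := D') (f := a)
      have s2 : ∑ j ∈ D, a j - ∑ j ∈ D', a j = 0 := by rw [h]; ring
      linarith
    apply h2 j₀ hj
    have e2 : a j₀ = ∑ j ∈ D' \ D, a j - ∑ j ∈ (D \ D').erase j₀, a j := by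
      rw [← e1, ← Finset.add_sum_erase _ _ hj₀]
      ring
    rw [e2]
    apply dvd_sub
    · apply Finset.dvd_sum
      intro j hj'
      have m1 : j₀ ≤ j := hmin j (by
        rw [Finset.mem_symmDiff]
        rw [Finset.mem_sdiff] at hj'
        exact Or.inr hj')
      have m2 : j₀ ≠ j := by
        rintro rfl
        exact (Finset.mem_sdiff.1 hj').2 (Finset.mem_sdiff.1 hj₀).1
      have m3 : e j₀ < e j := he (lt_of_le_of_ne m1 m2)
      exact dvd_trans (pow_dvd_pow 3 m3)
        (h1 j (Finset.mem_range.1 (hD' (Finset.mem_sdiff.1 hj').1)))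
    · apply Finset.dvd_sum
      intro j hj'
      rw [Finset.mem_erase] at hj'
      have m1 : j₀ ≤ j := hmin j (by
        rw [Finset.mem_symmDiff]
        exact Or.inl (Finset.mem_sdiff.1 hj'.2))
      have m3 : e j₀ < e j := he (lt_of_le_of_ne m1 (Ne.symm hj'.1))
      exact dvd_trans (pow_dvd_pow 3 m3)
        (h1 j (Finset.mem_range.1 (hD (Finset.mem_sdiff.1 hj'.2).1)))
  by_contra hne
  have hne2 : (symmDiff D D').Nonempty := by
    rw [Finset.nonempty_iff_ne_empty]
    intro h0
    exact hne (symmDiff_eq_bot.1 h0)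
  obtain ⟨j₀, hj₀⟩ : ∃ j₀, j₀ = (symmDiff D D').min' hne2 := ⟨_, rfl⟩
  have hmem : j₀ ∈ symmDiff D D' := by
    rw [hj₀]
    exact Finset.min'_mem _ _
  have hmin : ∀ j ∈ symmDiff D D', j₀ ≤ j := by
    intro j hj
    rw [hj₀]
    exact Finset.min'_le _ _ hj
  rw [Finset.mem_symmDiff] at hmem
  rcases hmem with hmem | hmem
  · exact key D D' hD hD' h j₀ (Finset.mem_sdiff.2 hmem) hmin
  · rw [symmDiff_comm] at hmin
    exact key D' D hD' hD h.symm j₀ (Finset.mem_sdiff.2 hmem) hmin

/-! ## The family of matrices -/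

/-- the two-step staircase -/
def stair (m : ℕ) (N : ℕ) : Fin N → ℕ := fun i => if (i : ℕ) < m then i + 1 else i

theorem stair_mono (m N : ℕ) : Monotone (stair m N) := by
  intro a b hab
  have := Fin.le_def.1 hab
  unfold stair
  split_ifs <;> omega

/-- the permanent after the deletion of row `c` -/
def pc (m N c : ℕ) : ℤ := (FM N (del c (stair m N))).permanent

theorem prod_stair {m N c : ℕ} (hm : m ≤ N) (hc : c < m) (x : ℤ) :
    ∏ i : Fin N, (x + (del c (stair m N) i : ℤ) - i) =
      (x + 1) ^ c * x ^ (m - c) * (x - 1) ^ (N - m) := by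
  have e : ∀ i : Fin N, x + (del c (stair m N) i : ℤ) - i =
      (fun k : ℕ => if k < c then x + 1 else if k < m then x else x - 1) i := by
    intro i
    unfold del stair
    simp only
    split_ifs <;> omega
  rw [Finset.prod_congr rfl (fun i _ => e i), Fin.prod_univ_eq_prod_range
    (fun k : ℕ => if k < c then x + 1 else if k < m then x else x - 1) N,
    ← Finset.prod_range_mul_prod_Ico _ hm, ← Finset.prod_range_mul_prod_Ico _ hc.le]
  congr 1
  · congr 1
    · rw [Finset.prod_congr rfl (g := fun _ => x + 1)]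
      · rw [Finset.prod_const, Finset.card_range]
      · intro k hk
        rw [if_pos (Finset.mem_range.1 hk)]
    · rw [Finset.prod_congr rfl (g := fun _ => x)]
      · rw [Finset.prod_const, Nat.card_Ico]
      · intro k hk
        rw [Finset.mem_Ico] at hk
        rw [if_neg (by omega), if_pos hk.2]
  · rw [Finset.prod_congr rfl (g := fun _ => x - 1)]
    · rw [Finset.prod_const, Nat.card_Ico]
    · intro k hk
      rw [Finset.mem_Ico] at hk
      rw [if_neg (by omega), if_neg (by omega)]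

theorem pc_val {m N c b : ℕ} (hm : m ≤ N) (hcb : c + b = m) (hb : Odd b) (hbc : b < c)
    (hbd : b < N - m) :
    (3 : ℤ) ^ b ∣ pc m N c ∧ ¬ (3 : ℤ) ^ (b + 1) ∣ pc m N c := by
  have hb0 : 0 < b := hb.pos
  obtain ⟨W, hW1, hW2⟩ := S_val (a := c) (d := N - m) (K := b + 1) hb hbc hbd (by omega)
  have hmain := main (M := 3 ^ (b + 1)) (Odd.pow (by decide)) N (del c (stair m N)) (by
    intro i j hij
    have := stair_mono m N hij
    unfold del
    split_ifs <;> omega) (by
    intro i
    have h1 := i.2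
    unfold del stair
    split_ifs <;> omega)
  have e : (fun x : ℤ => ∏ i : Fin N, (x + (del c (stair m N) i : ℤ) - i)) =
      fun x => (x + 1) ^ c * x ^ b * (x - 1) ^ (N - m) := by
    funext x
    rw [prod_stair hm (by omega)]
    congr 3
    omega
  rw [e] at hmain
  have hmain' : (3 : ℤ) ^ (b + 1) ∣ pc m N c - (-2) ^ N *
      S (3 ^ (b + 1)) (fun x => (x + 1) ^ c * x ^ b * (x - 1) ^ (N - m)) := by
    have : ((3 ^ (b + 1) : ℕ) : ℤ) = (3 : ℤ) ^ (b + 1) := by push_cast; ring
    rw [this] at hmain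
    exact hmain
  have htot : (3 : ℤ) ^ (b + 1) ∣ pc m N c - (-2) ^ N * (3 ^ b * W) := by
    have h1 := Dvd.dvd.mul_left hW1 ((-2 : ℤ) ^ N)
    have h2 := Dvd.dvd.add hmain' h1
    have e2 : pc m N c - (-2) ^ N *
        S (3 ^ (b + 1)) (fun x => (x + 1) ^ c * x ^ b * (x - 1) ^ (N - m)) + (-2) ^ N *
        (S (3 ^ (b + 1)) (fun x => (x + 1) ^ c * x ^ b * (x - 1) ^ (N - m)) - 3 ^ b * W) =
        pc m N c - (-2) ^ N * (3 ^ b * W) := by ring
    rw [e2] at h2
    exact h2
  constructor
  · have h3 : (3 : ℤ) ^ b ∣ pc m N c - (-2) ^ N * (3 ^ b * W) :=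
      dvd_trans (pow_dvd_pow 3 (Nat.le_succ b)) htot
    have h4 : (3 : ℤ) ^ b ∣ (-2) ^ N * (3 ^ b * W) := ⟨(-2) ^ N * W, by ring⟩
    have := Dvd.dvd.add h3 h4
    rwa [sub_add_cancel] at this
  · intro h3
    have h4 := dvd_sub h3 htot
    rw [sub_sub_cancel] at h4
    have h5 : (3 : ℤ) ^ b * 3 ∣ 3 ^ b * ((-2) ^ N * W) := by
      have e3 : (3 : ℤ) ^ b * ((-2) ^ N * W) = (-2) ^ N * (3 ^ b * W) := by ring
      rw [e3, ← pow_succ]
      exact h4
    have h6 : (3 : ℤ) ∣ (-2) ^ N * W := (mul_dvd_mul_iff_left (by positivity)).1 h5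
    rcases Int.Prime.dvd_mul' (by norm_num : Nat.Prime 3) h6 with h7 | h7
    · have h8 := Int.Prime.dvd_pow' (by norm_num : Nat.Prime 3) h7
      omega
    · exact hW2 (by exact_mod_cast h7)

/-- the matrices -/
def BM (m N : ℕ) (w : ℕ → ℤ) : Matrix (Fin (N + 1)) (Fin (N + 1)) ℤ :=
  fun r j => Fin.cases (w r) (fun i : Fin N => if (r : ℕ) < stair m N i then -1 else 1) j

theorem BM_permanent (m N : ℕ) (w : ℕ → ℤ) :
    (BM m N w).permanent = ∑ c ∈ Finset.range (N + 1), w c * pc m N c := by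
  rw [permanent_expand, ← Fin.sum_univ_eq_sum_range (fun c => w c * pc m N c)]
  apply Finset.sum_congr rfl
  intro c _
  have e1 : BM m N w c 0 = w c := rfl
  have e2 : (BM m N w).submatrix c.succAbove Fin.succ = FM N (del c (stair m N)) := by
    ext r i
    rw [Matrix.submatrix_apply]
    unfold BM FM del
    simp only [Fin.cases_succ]
    have := sub_entry c r (stair m N i)
    by_cases h1 : ((c.succAbove r : Fin (N + 1)) : ℕ) < stair m N i
    · rw [if_pos h1, if_pos (this.1 h1)]
    · rw [if_neg h1, if_neg (fun h2 => h1 (this.2 h2))]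
  rw [e1, e2]
  rfl

/-- at least `2 ^ ((n - 1) / 6)` values -/
theorem values (N : ℕ) :
    2 ^ (N / 6) ≤ Set.ncard {p : ℤ | ∃ A : Matrix (Fin (N + 1)) (Fin (N + 1)) ℤ,
      (∀ i j, A i j = 1 ∨ A i j = -1) ∧ A.permanent = p} := by
  classical
  obtain ⟨t, ht⟩ : ∃ t, t = N / 3 := ⟨_, rfl⟩
  obtain ⟨J, hJ⟩ : ∃ J, J = N / 6 := ⟨_, rfl⟩
  rw [← hJ]
  obtain ⟨w, hw⟩ : ∃ w : Finset ℕ → ℕ → ℤ, w = fun D c =>
    if ∃ j ∈ D, c + (2 * j + 1) = 2 * t then -1 else 1 := ⟨_, rfl⟩
  obtain ⟨a, ha⟩ : ∃ a : ℕ → ℤ, a = fun j => pc (2 * t) N (2 * t - (2 * j + 1)) := ⟨_, rfl⟩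
  have hval : ∀ j < J, (3 : ℤ) ^ (2 * j + 1) ∣ a j ∧ ¬ (3 : ℤ) ^ (2 * j + 1 + 1) ∣ a j := by
    intro j hj
    rw [ha]
    exact pc_val (by omega) (by omega) ⟨j, rfl⟩ (by omega) (by omega)
  have hper : ∀ D ⊆ Finset.range J, (BM (2 * t) N (w D)).permanent =
      ∑ c ∈ Finset.range (N + 1), pc (2 * t) N c - 2 * ∑ j ∈ D, a j := by
    intro D hD
    rw [BM_permanent]
    have e1 : ∀ c ∈ Finset.range (N + 1), w D c * pc (2 * t) N c = pc (2 * t) N c -
        2 * (if ∃ j ∈ D, c + (2 * j + 1) = 2 * t then pc (2 * t) N c else 0) := by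
      intro c _
      rw [hw]
      simp only
      split_ifs <;> ring
    rw [Finset.sum_congr rfl e1, Finset.sum_sub_distrib, ← Finset.mul_sum, ← Finset.sum_filter]
    congr 2
    symm
    apply Finset.sum_bij (fun j _ => 2 * t - (2 * j + 1))
    · intro j hj
      have := Finset.mem_range.1 (hD hj)
      rw [Finset.mem_filter, Finset.mem_range]
      exact ⟨by omega, j, hj, by omega⟩
    · intro i hi j hj hij
      have := Finset.mem_range.1 (hD hi)
      have := Finset.mem_range.1 (hD hj)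
      omega
    · intro c hc
      rw [Finset.mem_filter] at hc
      obtain ⟨_, j, hj, hcj⟩ := hc
      exact ⟨j, hj, by omega⟩
    · intro j _
      rw [ha]
  have hfin : {p : ℤ | ∃ A : Matrix (Fin (N + 1)) (Fin (N + 1)) ℤ,
      (∀ i j, A i j = 1 ∨ A i j = -1) ∧ A.permanent = p}.Finite := by
    apply Set.Finite.subset (Set.finite_range (fun b : Fin (N + 1) → Fin (N + 1) → Bool =>
      Matrix.permanent (fun i j => if b i j then (1 : ℤ) else -1)))
    rintro p ⟨A, hA, rfl⟩
    refine ⟨fun i j => decide (A i j = 1), ?_⟩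
    simp only
    congr 1
    ext i j
    rcases hA i j with h | h
    · simp [h]
    · simp [h]
  have hsub : ((((Finset.range J).powerset).image (fun D => (BM (2 * t) N (w D)).permanent) :
      Finset ℤ) : Set ℤ) ⊆ {p : ℤ | ∃ A : Matrix (Fin (N + 1)) (Fin (N + 1)) ℤ,
      (∀ i j, A i j = 1 ∨ A i j = -1) ∧ A.permanent = p} := by
    intro p hp
    rw [Finset.mem_coe, Finset.mem_image] at hp
    obtain ⟨D, _, rfl⟩ := hp
    refine ⟨BM (2 * t) N (w D), ?_, rfl⟩
    intro i j
    unfold BM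
    refine Fin.cases ?_ ?_ j
    · simp only [Fin.cases_zero]
      rw [hw]
      simp only
      split_ifs
      · exact Or.inr rfl
      · exact Or.inl rfl
    · intro k
      simp only [Fin.cases_succ]
      split_ifs
      · exact Or.inr rfl
      · exact Or.inl rfl
  have h1 := Set.ncard_le_ncard hsub hfin
  rw [Set.ncard_coe_finset, Finset.card_image_of_injOn, Finset.card_powerset,
    Finset.card_range] at h1
  · exact h1
  · intro D hD D' hD' hDD
    rw [Finset.mem_coe, Finset.mem_powerset] at hD hD'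
    simp only at hDD
    rw [hper D hD, hper D' hD'] at hDD
    apply subset_sums J a (fun j => 2 * j + 1) (by
      intro i j hij
      simp only
      omega) (fun j hj => (hval j hj).1) (fun j hj => (hval j hj).2) D D' hD hD'
    linarith

end Pool.Agent.Q156.PermFerrers
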