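import Pool.Agent.Q156.SkolemGood

/-! # Rosa and hooked Rosa sequences (difference problem modulo `6 t + 3`) -/

namespace Q156.Skolem

def alR0 (m i : ℕ) : ℕ :=
  if i = 4 * m then 2 * m else
  if i % 2 = 0 then 2 * m - i / 2 else
  if i = 1 then 7 * m + 1 else
  if i = 2 * m + 1 then 4 * m else
  if i < 2 * m then 5 * m + 1 + (2 * m - 1 - i) / 2 else
  4 * m + 2 + (4 * m - 1 - i) / 2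

lemma spec_R0 (m i : ℕ) :
    ((i = 4 * m) ∧ alR0 m i = 2 * m) ∨
    ((i % 2 = 0) ∧ ¬ (i = 4 * m) ∧ alR0 m i = 2 * m - i / 2) ∨
    ((i = 1) ∧ ¬ (i = 4 * m) ∧ ¬ (i % 2 = 0) ∧ alR0 m i = 7 * m + 1) ∨
    ((i = 2 * m + 1) ∧ ¬ (i = 4 * m) ∧ ¬ (i % 2 = 0) ∧ ¬ (i = 1) ∧ alR0 m i = 4 * m) ∨
    ((i < 2 * m) ∧ ¬ (i = 4 * m) ∧ ¬ (i % 2 = 0) ∧ ¬ (i = 1) ∧ ¬ (i = 2 * m + 1) ∧ alR0 m i = 5 * m + 1 + (2 * m - 1 - i) / 2) ∨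
    (¬ (i = 4 * m) ∧ ¬ (i % 2 = 0) ∧ ¬ (i = 1) ∧ ¬ (i = 2 * m + 1) ∧ ¬ (i < 2 * m) ∧ alR0 m i = 4 * m + 2 + (4 * m - 1 - i) / 2) := by
  unfold alR0
  split_ifs <;> simp_all

set_option maxHeartbeats 4000000 in
lemma good_R0 (m : ℕ) (hm : 2 ≤ m) : Good (6 * (4 * m) + 3) (4 * m) (alR0 m) := by
  refine ⟨?_, ?_, ?_⟩
  · intro i h1 h2
    have hi := spec_R0 m i
    generalize alR0 m i = x at *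
    rcases hi with ⟨p0, p1⟩ | ⟨p0, p1, p2⟩ | ⟨p0, p1, p2, p3⟩ | ⟨p0, p1, p2, p3, p4⟩ | ⟨p0, p1, p2, p3, p4, p5⟩ | ⟨p0, p1, p2, p3, p4, p5⟩ <;> omega
  · intro i j h1 h2 h3 h4
    have hi := spec_R0 m i
    have hj := spec_R0 m j
    by_cases hij : i = j
    · subst hij
      generalize alR0 m i = x at *
      clear hj
      rcases hi with ⟨p0, p1⟩ | ⟨p0, p1, p2⟩ | ⟨p0, p1, p2, p3⟩ | ⟨p0, p1, p2, p3, p4⟩ | ⟨p0, p1, p2, p3, p4, p5⟩ | ⟨p0, p1, p2, p3, p4, p5⟩ <;> omega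
    · generalize alR0 m i = x at *
      generalize alR0 m j = y at *
      rcases hi with ⟨p0, p1⟩ | ⟨p0, p1, p2⟩ | ⟨p0, p1, p2, p3⟩ | ⟨p0, p1, p2, p3, p4⟩ | ⟨p0, p1, p2, p3, p4, p5⟩ | ⟨p0, p1, p2, p3, p4, p5⟩ <;> rcases hj with ⟨q0, q1⟩ | ⟨q0, q1, q2⟩ | ⟨q0, q1, q2, q3⟩ | ⟨q0, q1, q2, q3, q4⟩ | ⟨q0, q1, q2, q3, q4, q5⟩ | ⟨q0, q1, q2, q3, q4, q5⟩ <;> omega
  · right
    refine ⟨rfl, ?_⟩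
    intro i h1 h2
    have hi := spec_R0 m i
    generalize alR0 m i = x at *
    rcases hi with ⟨p0, p1⟩ | ⟨p0, p1, p2⟩ | ⟨p0, p1, p2, p3⟩ | ⟨p0, p1, p2, p3, p4⟩ | ⟨p0, p1, p2, p3, p4, p5⟩ | ⟨p0, p1, p2, p3, p4, p5⟩ <;> omega

def alR3 (m i : ℕ) : ℕ :=
  if i = 1 then 7 * m - 1 else
  if i = 4 * m - 1 then 2 * m else
  if i = 2 * m then 2 * m - 1 else
  if i % 2 = 1 then 1 + (4 * m - 3 - i) / 2 else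
  if i < 2 * m then 6 * m - 1 - i / 2 else
  6 * m - i / 2

lemma spec_R3 (m i : ℕ) :
    ((i = 1) ∧ alR3 m i = 7 * m - 1) ∨
    ((i = 4 * m - 1) ∧ ¬ (i = 1) ∧ alR3 m i = 2 * m) ∨
    ((i = 2 * m) ∧ ¬ (i = 1) ∧ ¬ (i = 4 * m - 1) ∧ alR3 m i = 2 * m - 1) ∨
    ((i % 2 = 1) ∧ ¬ (i = 1) ∧ ¬ (i = 4 * m - 1) ∧ ¬ (i = 2 * m) ∧ alR3 m i = 1 + (4 * m - 3 - i) / 2) ∨
    ((i < 2 * m) ∧ ¬ (i = 1) ∧ ¬ (i = 4 * m - 1) ∧ ¬ (i = 2 * m) ∧ ¬ (i % 2 = 1) ∧ alR3 m i = 6 * m - 1 - i / 2) ∨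
    (¬ (i = 1) ∧ ¬ (i = 4 * m - 1) ∧ ¬ (i = 2 * m) ∧ ¬ (i % 2 = 1) ∧ ¬ (i < 2 * m) ∧ alR3 m i = 6 * m - i / 2) := by
  unfold alR3
  split_ifs <;> simp_all

set_option maxHeartbeats 4000000 in
lemma good_R3 (m : ℕ) (hm : 2 ≤ m) : Good (6 * (4 * m - 1) + 3) (4 * m - 1) (alR3 m) := by
  refine ⟨?_, ?_, ?_⟩
  · intro i h1 h2
    have hi := spec_R3 m i
    generalize alR3 m i = x at *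
    rcases hi with ⟨p0, p1⟩ | ⟨p0, p1, p2⟩ | ⟨p0, p1, p2, p3⟩ | ⟨p0, p1, p2, p3, p4⟩ | ⟨p0, p1, p2, p3, p4, p5⟩ | ⟨p0, p1, p2, p3, p4, p5⟩ <;> omega
  · intro i j h1 h2 h3 h4
    have hi := spec_R3 m i
    have hj := spec_R3 m j
    by_cases hij : i = j
    · subst hij
      generalize alR3 m i = x at *
      clear hj
      rcases hi with ⟨p0, p1⟩ | ⟨p0, p1, p2⟩ | ⟨p0, p1, p2, p3⟩ | ⟨p0, p1, p2, p3, p4⟩ | ⟨p0, p1, p2, p3, p4, p5⟩ | ⟨p0, p1, p2, p3, p4, p5⟩ <;> omega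
    · generalize alR3 m i = x at *
      generalize alR3 m j = y at *
      rcases hi with ⟨p0, p1⟩ | ⟨p0, p1, p2⟩ | ⟨p0, p1, p2, p3⟩ | ⟨p0, p1, p2, p3, p4⟩ | ⟨p0, p1, p2, p3, p4, p5⟩ | ⟨p0, p1, p2, p3, p4, p5⟩ <;> rcases hj with ⟨q0, q1⟩ | ⟨q0, q1, q2⟩ | ⟨q0, q1, q2, q3⟩ | ⟨q0, q1, q2, q3, q4⟩ | ⟨q0, q1, q2, q3, q4, q5⟩ | ⟨q0, q1, q2, q3, q4, q5⟩ <;> omega
  · right
    refine ⟨rfl, ?_⟩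
    intro i h1 h2
    have hi := spec_R3 m i
    generalize alR3 m i = x at *
    rcases hi with ⟨p0, p1⟩ | ⟨p0, p1, p2⟩ | ⟨p0, p1, p2, p3⟩ | ⟨p0, p1, p2, p3, p4⟩ | ⟨p0, p1, p2, p3, p4, p5⟩ | ⟨p0, p1, p2, p3, p4, p5⟩ <;> omega

def alHR1 (m i : ℕ) : ℕ :=
  if i % 2 = 0 then 2 * m + 1 - i / 2 else
  if i = 1 then 7 * m + 3 else
  if i = 4 * m + 1 then 2 * m + 1 else
  if i = 2 * m + 3 then 6 * m + 1 else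
  if i < 2 * m + 2 then 5 * m + 1 + (2 * m + 1 - i) / 2 else
  4 * m + 3 + (4 * m - 1 - i) / 2

lemma spec_HR1 (m i : ℕ) :
    ((i % 2 = 0) ∧ alHR1 m i = 2 * m + 1 - i / 2) ∨
    ((i = 1) ∧ ¬ (i % 2 = 0) ∧ alHR1 m i = 7 * m + 3) ∨
    ((i = 4 * m + 1) ∧ ¬ (i % 2 = 0) ∧ ¬ (i = 1) ∧ alHR1 m i = 2 * m + 1) ∨
    ((i = 2 * m + 3) ∧ ¬ (i % 2 = 0) ∧ ¬ (i = 1) ∧ ¬ (i = 4 * m + 1) ∧ alHR1 m i = 6 * m + 1) ∨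
    ((i < 2 * m + 2) ∧ ¬ (i % 2 = 0) ∧ ¬ (i = 1) ∧ ¬ (i = 4 * m + 1) ∧ ¬ (i = 2 * m + 3) ∧ alHR1 m i = 5 * m + 1 + (2 * m + 1 - i) / 2) ∨
    (¬ (i % 2 = 0) ∧ ¬ (i = 1) ∧ ¬ (i = 4 * m + 1) ∧ ¬ (i = 2 * m + 3) ∧ ¬ (i < 2 * m + 2) ∧ alHR1 m i = 4 * m + 3 + (4 * m - 1 - i) / 2) := by
  unfold alHR1
  split_ifs <;> simp_all

set_option maxHeartbeats 4000000 in
lemma good_HR1 (m : ℕ) (hm : 2 ≤ m) : Good (6 * (4 * m + 1) + 3) (4 * m + 1) (alHR1 m) := by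
  refine ⟨?_, ?_, ?_⟩
  · intro i h1 h2
    have hi := spec_HR1 m i
    generalize alHR1 m i = x at *
    rcases hi with ⟨p0, p1⟩ | ⟨p0, p1, p2⟩ | ⟨p0, p1, p2, p3⟩ | ⟨p0, p1, p2, p3, p4⟩ | ⟨p0, p1, p2, p3, p4, p5⟩ | ⟨p0, p1, p2, p3, p4, p5⟩ <;> omega
  · intro i j h1 h2 h3 h4
    have hi := spec_HR1 m i
    have hj := spec_HR1 m j
    by_cases hij : i = j
    · subst hij
      generalize alHR1 m i = x at *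
      clear hj
      rcases hi with ⟨p0, p1⟩ | ⟨p0, p1, p2⟩ | ⟨p0, p1, p2, p3⟩ | ⟨p0, p1, p2, p3, p4⟩ | ⟨p0, p1, p2, p3, p4, p5⟩ | ⟨p0, p1, p2, p3, p4, p5⟩ <;> omega
    · generalize alHR1 m i = x at *
      generalize alHR1 m j = y at *
      rcases hi with ⟨p0, p1⟩ | ⟨p0, p1, p2⟩ | ⟨p0, p1, p2, p3⟩ | ⟨p0, p1, p2, p3, p4⟩ | ⟨p0, p1, p2, p3, p4, p5⟩ | ⟨p0, p1, p2, p3, p4, p5⟩ <;> rcases hj with ⟨q0, q1⟩ | ⟨q0, q1, q2⟩ | ⟨q0, q1, q2, q3⟩ | ⟨q0, q1, q2, q3, q4⟩ | ⟨q0, q1, q2, q3, q4, q5⟩ | ⟨q0, q1, q2, q3, q4, q5⟩ <;> omega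
  · right
    refine ⟨rfl, ?_⟩
    intro i h1 h2
    have hi := spec_HR1 m i
    generalize alHR1 m i = x at *
    rcases hi with ⟨p0, p1⟩ | ⟨p0, p1, p2⟩ | ⟨p0, p1, p2, p3⟩ | ⟨p0, p1, p2, p3, p4⟩ | ⟨p0, p1, p2, p3, p4, p5⟩ | ⟨p0, p1, p2, p3, p4, p5⟩ <;> omega

def alHR2 (m i : ℕ) : ℕ :=
  if i = 4 * m + 2 then 4 * m + 2 else
  if i % 2 = 0 then 2 * m + 1 - i / 2 else
  if i = 1 then 7 * m + 4 else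
  if i = 4 * m + 1 then 2 * m + 1 else
  if i = 2 * m + 3 then 6 * m + 3 else
  if i < 2 * m + 2 then 5 * m + 2 + (2 * m + 1 - i) / 2 else
  4 * m + 4 + (4 * m - 1 - i) / 2

lemma spec_HR2 (m i : ℕ) :
    ((i = 4 * m + 2) ∧ alHR2 m i = 4 * m + 2) ∨
    ((i % 2 = 0) ∧ ¬ (i = 4 * m + 2) ∧ alHR2 m i = 2 * m + 1 - i / 2) ∨
    ((i = 1) ∧ ¬ (i = 4 * m + 2) ∧ ¬ (i % 2 = 0) ∧ alHR2 m i = 7 * m + 4) ∨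
    ((i = 4 * m + 1) ∧ ¬ (i = 4 * m + 2) ∧ ¬ (i % 2 = 0) ∧ ¬ (i = 1) ∧ alHR2 m i = 2 * m + 1) ∨
    ((i = 2 * m + 3) ∧ ¬ (i = 4 * m + 2) ∧ ¬ (i % 2 = 0) ∧ ¬ (i = 1) ∧ ¬ (i = 4 * m + 1) ∧ alHR2 m i = 6 * m + 3) ∨
    ((i < 2 * m + 2) ∧ ¬ (i = 4 * m + 2) ∧ ¬ (i % 2 = 0) ∧ ¬ (i = 1) ∧ ¬ (i = 4 * m + 1) ∧ ¬ (i = 2 * m + 3) ∧ alHR2 m i = 5 * m + 2 + (2 * m + 1 - i) / 2) ∨
    (¬ (i = 4 * m + 2) ∧ ¬ (i % 2 = 0) ∧ ¬ (i = 1) ∧ ¬ (i = 4 * m + 1) ∧ ¬ (i = 2 * m + 3) ∧ ¬ (i < 2 * m + 2) ∧ alHR2 m i = 4 * m + 4 + (4 * m - 1 - i) / 2) := by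
  unfold alHR2
  split_ifs <;> simp_all

set_option maxHeartbeats 4000000 in
lemma good_HR2 (m : ℕ) (hm : 2 ≤ m) : Good (6 * (4 * m + 2) + 3) (4 * m + 2) (alHR2 m) := by
  refine ⟨?_, ?_, ?_⟩
  · intro i h1 h2
    have hi := spec_HR2 m i
    generalize alHR2 m i = x at *
    rcases hi with ⟨p0, p1⟩ | ⟨p0, p1, p2⟩ | ⟨p0, p1, p2, p3⟩ | ⟨p0, p1, p2, p3, p4⟩ | ⟨p0, p1, p2, p3, p4, p5⟩ | ⟨p0, p1, p2, p3, p4, p5, p6⟩ | ⟨p0, p1, p2, p3, p4, p5, p6⟩ <;> omega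
  · intro i j h1 h2 h3 h4
    have hi := spec_HR2 m i
    have hj := spec_HR2 m j
    by_cases hij : i = j
    · subst hij
      generalize alHR2 m i = x at *
      clear hj
      rcases hi with ⟨p0, p1⟩ | ⟨p0, p1, p2⟩ | ⟨p0, p1, p2, p3⟩ | ⟨p0, p1, p2, p3, p4⟩ | ⟨p0, p1, p2, p3, p4, p5⟩ | ⟨p0, p1, p2, p3, p4, p5, p6⟩ | ⟨p0, p1, p2, p3, p4, p5, p6⟩ <;> omega
    · generalize alHR2 m i = x at *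
      generalize alHR2 m j = y at *
      rcases hi with ⟨p0, p1⟩ | ⟨p0, p1, p2⟩ | ⟨p0, p1, p2, p3⟩ | ⟨p0, p1, p2, p3, p4⟩ | ⟨p0, p1, p2, p3, p4, p5⟩ | ⟨p0, p1, p2, p3, p4, p5, p6⟩ | ⟨p0, p1, p2, p3, p4, p5, p6⟩ <;> rcases hj with ⟨q0, q1⟩ | ⟨q0, q1, q2⟩ | ⟨q0, q1, q2, q3⟩ | ⟨q0, q1, q2, q3, q4⟩ | ⟨q0, q1, q2, q3, q4, q5⟩ | ⟨q0, q1, q2, q3, q4, q5, q6⟩ | ⟨q0, q1, q2, q3, q4, q5, q6⟩ <;> omega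
  · right
    refine ⟨rfl, ?_⟩
    intro i h1 h2
    have hi := spec_HR2 m i
    generalize alHR2 m i = x at *
    rcases hi with ⟨p0, p1⟩ | ⟨p0, p1, p2⟩ | ⟨p0, p1, p2, p3⟩ | ⟨p0, p1, p2, p3, p4⟩ | ⟨p0, p1, p2, p3, p4, p5⟩ | ⟨p0, p1, p2, p3, p4, p5, p6⟩ | ⟨p0, p1, p2, p3, p4, p5, p6⟩ <;> omega

end Q156.Skolem
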