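import Mathlib

/-! Largest and second largest eigenvalue of a real symmetric matrix: elementary criteria by
eigenvectors. -/

set_option autoImplicit false

namespace Q156.SpecGap

open Matrix

variable {ι : Type} [Fintype ι] [DecidableEq ι] {A : Matrix ι ι ℝ} (hA : A.IsHermitian)

include hA

/-- an eigenvector for every value of `eigenvalues₀`; different indices give orthonormal vectors -/
theorem exists_basis : ∃ b : Fin (Fintype.card ι) → ι → ℝ,
    (∀ i, A *ᵥ b i = hA.eigenvalues₀ i • b i) ∧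
    (∀ i j, b i ⬝ᵥ b j = if i = j then 1 else 0) ∧
    (∀ x : ι → ℝ, x = ∑ i, (b i ⬝ᵥ x) • b i) := by
  classical
  let e : Fin (Fintype.card ι) ≃ ι := Fintype.equivOfCardEq (Fintype.card_fin _)
  let B := hA.eigenvectorBasis
  have hinner : ∀ x y : EuclideanSpace ℝ ι, inner ℝ x y = (x : ι → ℝ) ⬝ᵥ (y : ι → ℝ) := by
    intro x y
    rw [EuclideanSpace.inner_eq_star_dotProduct, dotProduct_comm]
    simp
  refine ⟨fun i => B (e i), fun i => ?_, fun i j => ?_, fun x => ?_⟩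
  · have h := hA.mulVec_eigenvectorBasis (e i)
    have h2 : hA.eigenvalues (e i) = hA.eigenvalues₀ i := by
      unfold Matrix.IsHermitian.eigenvalues
      simp [e]
    rw [h2] at h
    exact h
  · have h := orthonormal_iff_ite.1 B.orthonormal (e i) (e j)
    rw [hinner] at h
    simpa using h
  · have h := B.sum_repr' (WithLp.toLp 2 x)
    have h2 := congrArg (fun v : EuclideanSpace ℝ ι => (v : ι → ℝ)) h
    simp only [hinner] at h2
    have h3 : (∑ i, ((B i : ι → ℝ) ⬝ᵥ x) • (B i : ι → ℝ)) = x := by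
      conv_rhs => rw [← h2]
      ext k
      simp
    rw [← Equiv.sum_comp e] at h3
    exact h3.symm

omit [DecidableEq ι] in
/-- symmetry of the form -/
theorem form_symm (x y : ι → ℝ) : (A *ᵥ x) ⬝ᵥ y = x ⬝ᵥ (A *ᵥ y) := by
  rw [dotProduct_mulVec, ← mulVec_transpose]
  have : Aᵀ = A := by
    have := hA.eq
    rwa [conjTranspose_eq_transpose_of_trivial] at this
  rw [this]

omit [DecidableEq ι] in
/-- eigenvectors for different eigenvalues are orthogonal -/
theorem orth {x y : ι → ℝ} {a b : ℝ} (hx : A *ᵥ x = a • x) (hy : A *ᵥ y = b • y) (hab : a ≠ b) :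
    x ⬝ᵥ y = 0 := by
  have h := form_symm hA x y
  rw [hx, hy, smul_dotProduct, dotProduct_smul, smul_eq_mul, smul_eq_mul] at h
  have : (a - b) * (x ⬝ᵥ y) = 0 := by linarith
  rcases mul_eq_zero.1 this with h1 | h1
  · exact absurd (sub_eq_zero.1 h1) hab
  · exact h1

/-- every eigenvalue is bounded by a bound for the eigenvalues with an eigenvector -/
theorem eig_le (c : ℝ) (hc : ∀ (a : ℝ) (x : ι → ℝ), x ≠ 0 → A *ᵥ x = a • x → a ≤ c)
    (i : Fin (Fintype.card ι)) : hA.eigenvalues₀ i ≤ c := by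
  obtain ⟨b, hb1, hb2, -⟩ := exists_basis hA
  apply hc _ (b i) _ (hb1 i)
  intro h0
  have := hb2 i i
  rw [h0] at this
  simp at this

/-- an eigenvalue is at most the largest one -/
theorem le_eig0 (h0 : 0 < Fintype.card ι) {a : ℝ} {x : ι → ℝ} (hx0 : x ≠ 0)
    (hx : A *ᵥ x = a • x) : a ≤ hA.eigenvalues₀ ⟨0, h0⟩ := by
  obtain ⟨b, hb1, hb2, hb3⟩ := exists_basis hA
  by_contra hcon
  push Not at hcon
  apply hx0
  rw [hb3 x]
  apply Finset.sum_eq_zero
  intro i _
  have h1 : hA.eigenvalues₀ i ≤ hA.eigenvalues₀ ⟨0, h0⟩ :=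
    hA.eigenvalues₀_antitone (Fin.mk_le_of_le_val (Nat.zero_le _))
  rw [orth hA (hb1 i) hx (by linarith), zero_smul]

/-- two independent eigenvectors give a lower bound for the second eigenvalue -/
theorem le_eig1 (h1 : 1 < Fintype.card ι) {a a' c : ℝ} {x y : ι → ℝ}
    (hx : A *ᵥ x = a • x) (hy : A *ᵥ y = a' • y) (ha : c ≤ a) (ha' : c ≤ a')
    (hind : LinearIndependent ℝ ![x, y]) : c ≤ hA.eigenvalues₀ ⟨1, h1⟩ := by
  obtain ⟨b, hb1, hb2, hb3⟩ := exists_basis hA
  by_contra hcon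
  push Not at hcon
  obtain ⟨i₀, hi₀⟩ : ∃ i₀ : Fin (Fintype.card ι), i₀ = ⟨0, by omega⟩ := ⟨_, rfl⟩
  have hlt : ∀ i, i ≠ i₀ → hA.eigenvalues₀ i < c := by
    intro i hi
    refine lt_of_le_of_lt (hA.eigenvalues₀_antitone ?_) hcon
    rw [Fin.le_def]
    have : i.1 ≠ 0 := fun h => hi (by rw [hi₀]; exact Fin.ext h)
    show 1 ≤ i.1
    omega
  have key : ∀ (z : ι → ℝ) (d : ℝ), A *ᵥ z = d • z → c ≤ d → z = (b i₀ ⬝ᵥ z) • b i₀ := by
    intro z d hz hd
    conv_lhs => rw [hb3 z]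
    rw [Finset.sum_eq_single i₀]
    · intro i _ hi
      have := hlt i hi
      rw [orth hA (hb1 i) hz (by linarith), zero_smul]
    · intro h
      exact absurd (Finset.mem_univ _) h
  have kx := key x a hx ha
  have ky := key y a' hy ha'
  rw [LinearIndependent.pair_iff] at hind
  have h2 := hind (b i₀ ⬝ᵥ y) (-(b i₀ ⬝ᵥ x)) (by
    rw [kx, ky]
    simp only [smul_smul, dotProduct_smul, smul_eq_mul, hb2, if_true]
    rw [← add_smul]
    ring_nf
    simp)
  obtain ⟨h3, h4⟩ := h2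
  have h5 : x = 0 := by rw [kx, neg_eq_zero.1 h4, zero_smul]
  have := hind 1 0 (by rw [h5]; simp)
  exact one_ne_zero this.1

/-- if all eigenvectors with an eigenvalue `≥ c` are multiples of one vector then the second
eigenvalue is less than `c` -/
theorem eig1_lt (h1 : 1 < Fintype.card ι) (c : ℝ) (v : ι → ℝ)
    (hc : ∀ (a : ℝ) (x : ι → ℝ), c ≤ a → A *ᵥ x = a • x → ∃ s : ℝ, x = s • v) :
    hA.eigenvalues₀ ⟨1, h1⟩ < c := by
  obtain ⟨b, hb1, hb2, -⟩ := exists_basis hA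
  by_contra hcon
  push Not at hcon
  have h0 : hA.eigenvalues₀ ⟨1, h1⟩ ≤ hA.eigenvalues₀ ⟨0, by omega⟩ :=
    hA.eigenvalues₀_antitone (by rw [Fin.le_def]; exact Nat.zero_le _)
  obtain ⟨s, hs⟩ := hc _ _ hcon (hb1 _)
  obtain ⟨t, ht⟩ := hc _ _ (hcon.trans h0) (hb1 _)
  have e1 := hb2 ⟨1, h1⟩ ⟨1, h1⟩
  have e2 := hb2 ⟨0, by omega⟩ ⟨0, by omega⟩
  have e3 := hb2 ⟨1, h1⟩ ⟨0, by omega⟩
  rw [hs] at e1 e3
  rw [ht] at e2 e3
  simp only [smul_dotProduct, dotProduct_smul, smul_eq_mul, if_true] at e1 e2 e3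
  rw [if_neg (by simp)] at e3
  have hs0 : s ≠ 0 := by rintro rfl; simp at e1
  have ht0 : t ≠ 0 := by rintro rfl; simp at e2
  have hv : v ⬝ᵥ v = 0 := by
    rcases mul_eq_zero.1 e3 with h | h
    · exact absurd h ht0
    · rcases mul_eq_zero.1 h with h | h
      · exact absurd h hs0
      · exact h
  rw [hv] at e1
  simp at e1

end Q156.SpecGap
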